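import Pool.Agent.Helper10.CYC.OddDefs
import Pool.Agent.Helper91.CYC.PieceA

/-!
# Theta calculus: how to use the identities `top (M * dd X a * dd X b) = 0`

`E` is a commutative `K`-algebra with nilpotent variables `ξ_i` (`ξ_i ^ 2 = 0`), `top` is the
coefficient of `∏ ξ_i`, `x_i = d_i + ξ_i`, `X = ∏ (t - x_i)`.
-/

set_option autoImplicit false
set_option linter.unusedSectionVars false

namespace Pool.Agent.Helper57.CYC

open Finset Polynomial Pool.Agent.Helper10.CYC

/-- Square zero variables with the top coefficient and the augmentation. -/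
structure NilTop (K E : Type) [CommRing K] [CommRing E] [Algebra K E] (r : ℕ) where
  /-- the variables -/
  xi : Fin r → E
  sq : ∀ i, xi i ^ 2 = 0
  /-- the coefficient of the product of all variables -/
  top : E →ₗ[K] K
  top_prod : ∀ T : Finset (Fin r), top (∏ i ∈ T, xi i) = if T = univ then 1 else 0
  /-- the value at `ξ = 0` -/
  aug : E →ₐ[K] K
  aug_xi : ∀ i, aug (xi i) = 0

namespace NilTop

section Basic

variable {K E : Type} [CommRing K] [CommRing E] [Algebra K E] {r : ℕ} (N : NilTop K E r)

/-- The deformed roots. -/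
def x (d : Fin r → K) (i : Fin r) : E := algebraMap K E (d i) + N.xi i

lemma top_prod_add (u w : Fin r → K) :
    N.top (∏ i, (algebraMap K E (u i) + algebraMap K E (w i) * N.xi i)) = ∏ i, w i := by
  classical
  rw [Finset.prod_add, map_sum]
  rw [Finset.sum_eq_single (∅ : Finset (Fin r))]
  · rw [Finset.prod_empty, one_mul, Finset.sdiff_empty, Finset.prod_mul_distrib, ← map_prod,
      ← Algebra.smul_def, map_smul, N.top_prod, if_pos rfl, smul_eq_mul, mul_one]
  · intro T _ hT
    rw [Finset.prod_mul_distrib, ← map_prod, ← map_prod, ← mul_assoc, ← map_mul,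
      ← Algebra.smul_def, map_smul, N.top_prod, if_neg, smul_zero]
    intro h
    apply hT
    rw [Finset.eq_empty_iff_forall_notMem]
    intro i hi
    have h1 : i ∈ univ \ T := by rw [h]; exact mem_univ i
    exact (Finset.mem_sdiff.1 h1).2 hi
  · intro h
    exact absurd (Finset.empty_mem_powerset _) h

variable [CharP K 2]

omit N in
include K in
lemma two_eq_zero_E : (2 : E) = 0 := by
  have h : (2 : K) = 0 := CharTwo.two_eq_zero
  have h2 := congrArg (algebraMap K E) h
  rwa [map_ofNat, map_zero] at h2

lemma x_sq (d : Fin r → K) (i : Fin r) : N.x d i ^ 2 = algebraMap K E (d i ^ 2) := by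
  have h2 : (2 : E) = 0 := two_eq_zero_E (K := K)
  have h3 := N.sq i
  unfold x
  rw [map_pow]
  linear_combination (algebraMap K E (d i)) * N.xi i * h2 + h3

/-- (T1) -/
lemma top_pair (d : Fin r → K) (c c' A B : Fin r → K) :
    N.top (∏ i, ((algebraMap K E (c i) + algebraMap K E (c' i) * N.x d i) *
      (algebraMap K E (B i) + algebraMap K E (A i) * N.x d i))) = ∏ i, (c i * A i + c' i * B i) := by
  have h : ∀ i, ((algebraMap K E (c i) + algebraMap K E (c' i) * N.x d i) *
      (algebraMap K E (B i) + algebraMap K E (A i) * N.x d i))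
      = algebraMap K E (c i * B i + c' i * A i * d i ^ 2 +
          (c i * A i + c' i * B i) * d i) +
        algebraMap K E (c i * A i + c' i * B i) * N.xi i := by
    intro i
    have h1 := N.x_sq d i
    have h2 : (c i * A i + c' i * B i) * d i + (c i * A i + c' i * B i) * d i = 0 :=
      CharTwo.add_self_eq_zero _
    have h3 : N.x d i = algebraMap K E (d i) + N.xi i := rfl
    simp only [map_add, map_mul, map_pow] at h1 ⊢
    linear_combination (algebraMap K E (c' i)) * (algebraMap K E (A i)) * h1 +
      ((algebraMap K E (c i)) * (algebraMap K E (A i)) +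
        (algebraMap K E (c' i)) * (algebraMap K E (B i))) * h3
  rw [Finset.prod_congr rfl (fun i _ => h i), N.top_prod_add]

/-- The product of the values of a polynomial at the deformed roots. -/
noncomputable def res (d : Fin r → K) (ν : K[X]) : E := ∏ i, aeval (N.x d i) ν

/-- The theta functionals. -/
def th (d : Fin r → K) (A B : K → K) (M : E) : K :=
  N.top (M * ∏ i, (algebraMap K E (B (d i)) + algebraMap K E (A (d i)) * N.x d i))

/-- The ideal of all elements killed by the theta functionals. -/
def InI (d : Fin r → K) (M : E) : Prop := ∀ A B : K → K, N.th d A B M = 0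

lemma InI.add {d : Fin r → K} {M M' : E} (h : N.InI d M) (h' : N.InI d M') :
    N.InI d (M + M') := by
  intro A B
  have h1 := h A B
  have h2 := h' A B
  unfold th at *
  rw [add_mul, map_add, h1, h2, add_zero]

lemma InI.zero {d : Fin r → K} : N.InI d 0 := by
  intro A B
  unfold th
  rw [zero_mul, map_zero]

lemma InI.smul {d : Fin r → K} {M : E} (h : N.InI d M) (c : K) :
    N.InI d (algebraMap K E c * M) := by
  intro A B
  have h1 := h A B
  unfold th at *
  rw [mul_assoc, ← Algebra.smul_def, map_smul, h1, smul_zero]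

lemma InI.sum {ι : Type*} (s : Finset ι) {d : Fin r → K} {M : ι → E}
    (h : ∀ i ∈ s, N.InI d (M i)) : N.InI d (∑ i ∈ s, M i) := by
  classical
  induction s using Finset.induction_on with
  | empty => simpa using InI.zero N
  | insert a s ha ih =>
    rw [Finset.sum_insert ha]
    exact InI.add N (h a (Finset.mem_insert_self a s))
      (ih (fun i hi => h i (Finset.mem_insert_of_mem hi)))

/-- Multiplication by a linear factor moves the parameters. -/
lemma InI.mul_lin {d : Fin r → K} {M : E} (h : N.InI d M) (A' B' : K → K) :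
    N.InI d (M * ∏ i, (algebraMap K E (B' (d i)) + algebraMap K E (A' (d i)) * N.x d i)) := by
  intro A B
  have h1 := h (fun t => B' t * A t + A' t * B t) (fun t => B' t * B t + A' t * A t * t ^ 2)
  unfold th at *
  rw [← h1, mul_assoc, ← Finset.prod_mul_distrib]
  congr 2
  refine Finset.prod_congr rfl (fun i _ => ?_)
  have h2 := N.x_sq d i
  simp only [map_add, map_mul, map_pow] at h2 ⊢
  linear_combination (algebraMap K E (A' (d i))) * (algebraMap K E (A (d i))) * h2

end Basic

section Fld

variable {K E : Type} [Field K] [CommRing E] [Algebra K E] {r : ℕ} (N : NilTop K E r)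
  [CharP K 2]

/-- (T2) Every pair of functions is realised by a polynomial. -/
lemma exists_poly (d : Fin r → K) (A B : K → K) :
    ∃ ν : K[X], ∀ i, aeval (N.x d i) ν =
      algebraMap K E (B (d i)) + algebraMap K E (A (d i)) * N.x d i := by
  classical
  set s : Finset K := univ.image d with hs
  have hinj : Set.InjOn (fun t : K => t ^ 2) (s : Set K) := by
    intro a _ b _ hab
    exact CharTwo.sq_injective hab
  set P := Lagrange.interpolate s (fun t : K => t ^ 2) B with hP
  set Q := Lagrange.interpolate s (fun t : K => t ^ 2) A with hQ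
  refine ⟨P.comp (X ^ 2) + X * Q.comp (X ^ 2), fun i => ?_⟩
  have hi : d i ∈ s := by rw [hs]; exact Finset.mem_image_of_mem _ (mem_univ i)
  have hPi : P.eval (d i ^ 2) = B (d i) := Lagrange.eval_interpolate_at_node B hinj hi
  have hQi : Q.eval (d i ^ 2) = A (d i) := Lagrange.eval_interpolate_at_node A hinj hi
  have h1 : ∀ R : K[X], aeval (N.x d i) (R.comp (X ^ 2)) = algebraMap K E (R.eval (d i ^ 2)) := by
    intro R
    rw [aeval_comp, map_pow, aeval_X, N.x_sq, aeval_algebraMap_apply]
    simp
  rw [map_add, map_mul, aeval_X, h1, h1, hPi, hQi, mul_comm (N.x d i)]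

/-- The values of a polynomial at the deformed roots are linear. -/
lemma exists_fun (d : Fin r → K) (ν : K[X]) :
    ∃ A B : K → K, ∀ i, aeval (N.x d i) ν =
      algebraMap K E (B (d i)) + algebraMap K E (A (d i)) * N.x d i := by
  induction ν using Polynomial.induction_on with
  | C a =>
    refine ⟨fun _ => 0, fun _ => a, fun i => ?_⟩
    simp
  | add p q hp hq =>
    obtain ⟨A, B, h⟩ := hp
    obtain ⟨A', B', h'⟩ := hq
    refine ⟨fun t => A t + A' t, fun t => B t + B' t, fun i => ?_⟩
    rw [map_add, h, h', map_add, map_add]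
    ring
  | monomial n a h =>
    obtain ⟨A, B, h⟩ := h
    refine ⟨fun t => B t, fun t => A t * t ^ 2, fun i => ?_⟩
    have h2 := N.x_sq d i
    rw [pow_succ, ← mul_assoc, map_mul, h, aeval_X]
    simp only [map_mul, map_pow] at h2 ⊢
    linear_combination (algebraMap K E (A (d i))) * h2

lemma InI.mul_res {d : Fin r → K} {M : E} (h : N.InI d M) (ν : K[X]) :
    N.InI d (M * N.res d ν) := by
  obtain ⟨A', B', h'⟩ := N.exists_fun d ν
  have h2 := InI.mul_lin N h A' B'
  unfold res
  rw [Finset.prod_congr rfl (fun i _ => h' i)]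
  exact h2

/-- `M` is in the ideal when it is killed by all tests. -/
lemma inI_of_res {d : Fin r → K} {M : E} (h : ∀ ν : K[X], N.top (M * N.res d ν) = 0) :
    N.InI d M := by
  intro A B
  obtain ⟨ν, hν⟩ := N.exists_poly d A B
  have h2 := h ν
  unfold res at h2
  rw [Finset.prod_congr rfl (fun i _ => hν i)] at h2
  exact h2

end Fld

end NilTop

/-! ### Determinants modulo a product of linear factors -/

lemma exists_lift (R : Type) [CommRing R] (k : ℕ) (y : Fin k → R) :
    ∃ (S : Type) (_ : CommRing S) (_ : IsDomain S) (φ : S →+* R) (z : Fin k → S),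
      Function.Surjective φ ∧ Function.Injective z ∧ ∀ i, φ (z i) = y i := by
  refine ⟨MvPolynomial (Fin k ⊕ R) ℤ, inferInstance, inferInstance,
    MvPolynomial.eval₂Hom (Int.castRingHom R) (Sum.elim y id), fun i => MvPolynomial.X (Sum.inl i),
    ?_, ?_, ?_⟩
  · intro a
    refine ⟨MvPolynomial.X (Sum.inr a), ?_⟩
    simp
  · intro i j hij
    exact Sum.inl_injective (MvPolynomial.X_injective hij)
  · intro i
    simp

lemma exists_lift_char (R : Type) [CommRing R] [CharP R 2] (k : ℕ) (y : Fin k → R) :
    ∃ (S : Type) (_ : CommRing S) (_ : IsDomain S) (_ : CharP S 2) (φ : S →+* R)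
      (z : Fin k → S), Function.Surjective φ ∧ Function.Injective z ∧ ∀ i, φ (z i) = y i := by
  refine ⟨MvPolynomial (Fin k ⊕ R) (ZMod 2), inferInstance, inferInstance, inferInstance,
    MvPolynomial.eval₂Hom (ZMod.castHom (dvd_refl 2) R) (Sum.elim y id),
    fun i => MvPolynomial.X (Sum.inl i), ?_, ?_, ?_⟩
  · intro a
    refine ⟨MvPolynomial.X (Sum.inr a), ?_⟩
    simp
  · intro i j hij
    exact Sum.inl_injective (MvPolynomial.X_injective hij)
  · intro i
    simp

/-- Multiplication of all columns by one polynomial. -/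
lemma dd_mul (R : Type) [CommRing R] {k : ℕ} (y : Fin k → R) (u : R[X]) (g : Fin k → R[X]) :
    dd (∏ i, (X - C (y i))) (fun j => u * g j)
      = (∏ i, u.eval (y i)) * dd (∏ i, (X - C (y i))) g := by
  obtain ⟨S, _, _, φ, z, hφ, hz, hzy⟩ := exists_lift R k y
  obtain ⟨U, hU⟩ := Polynomial.map_surjective φ hφ u
  have hg : ∀ j, ∃ G : S[X], G.map φ = g j := fun j => Polynomial.map_surjective φ hφ (g j)
  choose G hG using hg
  have hm : (∏ i, (X - C (z i))).Monic := monic_prod_of_monic _ _ (fun i _ => monic_X_sub_C _)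
  have hf : (∏ i, (X - C (z i))).map φ = ∏ i, (X - C (y i)) := by
    rw [Polynomial.map_prod]
    refine Finset.prod_congr rfl (fun i _ => ?_)
    simp [hzy]
  have hV : (Matrix.vandermonde z).det ≠ 0 := Matrix.det_vandermonde_ne_zero_iff.2 hz
  have key : dd (∏ i, (X - C (z i))) (fun j => U * G j)
      = (∏ i, U.eval (z i)) * dd (∏ i, (X - C (z i))) G := by
    apply mul_left_cancel₀ hV
    have h1 := Pool.Agent.Helper91.CYC.st_a2 S k z (fun j => U * G j)
    have h2 := Pool.Agent.Helper91.CYC.st_a2 S k z G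
    rw [← h1, mul_left_comm, ← h2, ← Matrix.det_mul_column]
    congr 1
    ext i j
    simp
  have h3 := congrArg φ key
  rw [Pool.Agent.Helper91.CYC.st_a1 S R φ k _ hm, map_mul,
    Pool.Agent.Helper91.CYC.st_a1 S R φ k _ hm, hf, map_prod] at h3
  have h4 : (fun j => (U * G j).map φ) = (fun j => u * g j) := by
    funext j
    rw [Polynomial.map_mul, hU, hG]
  have h5 : (fun j => (G j).map φ) = g := by
    funext j
    exact hG j
  rw [h4, h5] at h3
  rw [h3]
  congr 1
  refine Finset.prod_congr rfl (fun i _ => ?_)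
  rw [← hU, ← hzy, Polynomial.eval_map, Polynomial.eval₂_at_apply]

lemma dd_one (R : Type) [CommRing R] {k : ℕ} (y : Fin k → R) :
    dd (∏ i, (X - C (y i))) (fun j : Fin k => X ^ (j : ℕ)) = 1 := by
  obtain ⟨S, _, _, φ, z, hφ, hz, hzy⟩ := exists_lift R k y
  have hm : (∏ i, (X - C (z i))).Monic := monic_prod_of_monic _ _ (fun i _ => monic_X_sub_C _)
  have hf : (∏ i, (X - C (z i))).map φ = ∏ i, (X - C (y i)) := by
    rw [Polynomial.map_prod]
    refine Finset.prod_congr rfl (fun i _ => ?_)
    simp [hzy]
  have hV : (Matrix.vandermonde z).det ≠ 0 := Matrix.det_vandermonde_ne_zero_iff.2 hz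
  have key : dd (∏ i, (X - C (z i))) (fun j : Fin k => X ^ (j : ℕ)) = 1 := by
    apply mul_left_cancel₀ hV
    rw [← Pool.Agent.Helper91.CYC.st_a2 S k z, mul_one]
    congr 1
    ext i j
    simp [Matrix.vandermonde_apply]
  have h3 := congrArg φ key
  rw [Pool.Agent.Helper91.CYC.st_a1 S R φ k _ hm, hf, map_one] at h3
  rw [← h3]
  congr 1
  funext j
  simp

lemma dd_pow (R : Type) [CommRing R] {k : ℕ} (y : Fin k → R) (u : R[X]) :
    dd (∏ i, (X - C (y i))) (fun j : Fin k => u * X ^ (j : ℕ)) = ∏ i, u.eval (y i) := by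
  rw [dd_mul R y u (fun j => X ^ (j : ℕ)), dd_one, mul_one]

namespace NilTop

section Fld

variable {K E : Type} [Field K] [CommRing E] [Algebra K E] {r : ℕ} (N : NilTop K E r)
  [CharP K 2]

/-- The deformed polynomial. -/
noncomputable def XX (d : Fin r → K) : E[X] := ∏ i, (X - C (N.x d i))

/-- The consumer form of (A*). -/
theorem inI_of_dd {d : Fin r → K} {M : E}
    (h : ∀ a b : Fin r → K[X], N.top (M * dd (N.XX d) (fun j => (a j).map (algebraMap K E)) *
      dd (N.XX d) (fun j => (b j).map (algebraMap K E))) = 0) : N.InI d M := by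
  apply N.inI_of_res
  intro ν
  have h1 := h (fun j => X ^ (j : ℕ)) (fun j => ν * X ^ (j : ℕ))
  have h2 : (fun j : Fin r => ((X : K[X]) ^ (j : ℕ)).map (algebraMap K E))
      = (fun j : Fin r => (X : E[X]) ^ (j : ℕ)) := by
    funext j
    simp
  have h3 : (fun j : Fin r => (ν * (X : K[X]) ^ (j : ℕ)).map (algebraMap K E))
      = (fun j : Fin r => ν.map (algebraMap K E) * (X : E[X]) ^ (j : ℕ)) := by
    funext j
    simp
  rw [h2, h3] at h1
  unfold XX at h1
  rw [dd_one, dd_pow, mul_one] at h1
  rw [← h1]
  congr 2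
  unfold res
  refine Finset.prod_congr rfl (fun i _ => ?_)
  rw [Polynomial.eval_map_algebraMap]

/-- The theta functional as a linear map. -/
noncomputable def thL (d : Fin r → K) (A B : K → K) : E →ₗ[K] K where
  toFun := N.th d A B
  map_add' := by
    intro a b
    unfold th
    rw [add_mul, map_add]
  map_smul' := by
    intro c a
    unfold th
    rw [smul_mul_assoc, map_smul, RingHom.id_apply]

lemma thL_apply (d : Fin r → K) (A B : K → K) (M : E) : N.thL d A B M = N.th d A B M := rfl

/-- A functional applied to the coefficients of a polynomial. -/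
lemma lin_coeff_eq [Infinite K] (L : E →ₗ[K] K) (p : E[X]) (q : K[X])
    (h : ∀ s : K, L (p.eval (algebraMap K E s)) = q.eval s) (j : ℕ) :
    L (p.coeff j) = q.coeff j := by
  set P : K[X] := ∑ i ∈ p.support, C (L (p.coeff i)) * X ^ i with hP
  have h1 : P = q := by
    apply Polynomial.funext
    intro s
    rw [← h s, hP, eval_finsetSum, eval_eq_sum, Polynomial.sum, map_sum]
    refine Finset.sum_congr rfl (fun i _ => ?_)
    rw [eval_mul, eval_C, eval_pow, eval_X, ← map_pow, mul_comm (p.coeff i), ← Algebra.smul_def,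
      map_smul, smul_eq_mul, mul_comm]
  rw [← h1, hP, finsetSum_coeff]
  simp only [coeff_C_mul, coeff_X_pow]
  by_cases hj : j ∈ p.support
  · rw [Finset.sum_eq_single j]
    · simp
    · intro i _ hij
      rw [if_neg (Ne.symm hij), mul_zero]
    · intro h2
      exact absurd hj h2
  · rw [notMem_support_iff.1 hj, map_zero, Finset.sum_eq_zero]
    intro i hi
    rw [if_neg, mul_zero]
    rintro rfl
    exact hj hi

/-- The elementary symmetric functions of the deformed roots, as a polynomial. -/
noncomputable def EE (d : Fin r → K) : E[X] := ∏ i, (1 + C (N.x d i) * X)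

lemma eval_EE (d : Fin r → K) (s : K) :
    (N.EE d).eval (algebraMap K E s) = N.res d (1 + C s * X) := by
  unfold EE res
  rw [eval_prod]
  refine Finset.prod_congr rfl (fun i _ => ?_)
  rw [eval_add, eval_mul, eval_one, eval_C, eval_X, map_add, map_mul, map_one, aeval_C, aeval_X,
    mul_comm]

lemma InI.mul_ee [Infinite K] {d : Fin r → K} {M : E} (h : N.InI d M) (j : ℕ) :
    N.InI d (M * (N.EE d).coeff j) := by
  intro A B
  have h1 := lin_coeff_eq (N.thL d A B) (C M * N.EE d) 0 (by
    intro s
    rw [eval_mul, eval_C, eval_EE, thL_apply, eval_zero]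
    exact InI.mul_res N h _ A B) j
  rw [coeff_C_mul, thL_apply, coeff_zero] at h1
  exact h1

/-- The subalgebra of symmetric functions. -/
noncomputable def Sub (d : Fin r → K) : Subalgebra K E :=
  Algebra.adjoin K (Set.range (fun j => (N.EE d).coeff j))

lemma ee_mem (d : Fin r → K) (j : ℕ) : (N.EE d).coeff j ∈ N.Sub d :=
  Algebra.subset_adjoin ⟨j, rfl⟩

lemma InI.mul_sub [Infinite K] {d : Fin r → K} {M U : E} (h : N.InI d M) (hU : U ∈ N.Sub d) :
    N.InI d (M * U) := by
  unfold Sub at hU
  induction hU using Algebra.adjoin_induction generalizing M with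
  | mem x hx =>
    obtain ⟨j, rfl⟩ := hx
    exact InI.mul_ee N h j
  | algebraMap c =>
    rw [mul_comm]
    exact InI.smul N h c
  | add x y _ _ hx hy =>
    rw [mul_add]
    exact InI.add N (hx h) (hy h)
  | mul x y _ _ hx hy =>
    rw [← mul_assoc]
    exact hy (hx h)

lemma x_mem_sq (d : Fin r → K) {U : E} (hU : U ∈ N.Sub d) :
    U ^ 2 = algebraMap K E (N.aug U ^ 2) := by
  have h2 : (2 : E) = 0 := two_eq_zero_E (K := K)
  have hgen : ∀ p : E, p ∈ Algebra.adjoin K (Set.range (N.x d)) →
      p ^ 2 = algebraMap K E (N.aug p ^ 2) := by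
    intro p hp
    induction hp using Algebra.adjoin_induction with
    | mem x hx =>
      obtain ⟨i, rfl⟩ := hx
      rw [N.x_sq]
      congr 2
      unfold x
      rw [map_add, N.aug_xi, add_zero, AlgHom.commutes]
      rfl
    | algebraMap c => rw [AlgHom.commutes, map_pow]; rfl
    | add x y _ _ hx hy =>
      rw [map_add]
      have e1 : (x + y) ^ 2 = x ^ 2 + y ^ 2 := by linear_combination x * y * h2
      have e2 : (N.aug x + N.aug y) ^ 2 = N.aug x ^ 2 + N.aug y ^ 2 := by
        have h3 : (2 : K) = 0 := CharTwo.two_eq_zero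
        linear_combination N.aug x * N.aug y * h3
      rw [e1, e2, hx, hy, map_add]
    | mul x y _ _ hx hy => rw [map_mul, mul_pow, mul_pow, hx, hy, map_mul]
  apply hgen
  have hle : N.Sub d ≤ Algebra.adjoin K (Set.range (N.x d)) := by
    unfold Sub
    apply Algebra.adjoin_le
    rintro _ ⟨j, rfl⟩
    have hEE : N.EE d ∈ Polynomial.lifts (algebraMap (Algebra.adjoin K (Set.range (N.x d))) E) := by
      unfold EE
      refine Subsemiring.prod_mem _ (fun i _ => ?_)
      refine Subsemiring.add_mem _ (Subsemiring.one_mem _) (Subsemiring.mul_mem _ ?_ ?_)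
      · rw [Polynomial.mem_lifts]
        exact ⟨C ⟨N.x d i, Algebra.subset_adjoin ⟨i, rfl⟩⟩, by simp⟩
      · exact Polynomial.X_mem_lifts _
    rw [Polynomial.lifts_iff_coeff_lifts] at hEE
    obtain ⟨c, hc⟩ := hEE j
    show (N.EE d).coeff j ∈ _
    rw [← hc]
    exact c.2
  exact hle hU

/-- Elements with non zero plain value can be cancelled. -/
lemma InI.cancel [Infinite K] {d : Fin r → K} {M U : E} (hU : U ∈ N.Sub d) (hu : N.aug U ≠ 0)
    (h : N.InI d (M * U)) : N.InI d M := by
  have h1 := InI.mul_sub N h hU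
  have h2 := N.x_mem_sq d hU
  have h3 := InI.smul N h1 ((N.aug U ^ 2)⁻¹)
  have h4 : algebraMap K E ((N.aug U ^ 2)⁻¹) * (M * U * U) = M := by
    have h5 : algebraMap K E ((N.aug U ^ 2)⁻¹) * algebraMap K E (N.aug U ^ 2) = 1 := by
      rw [← map_mul, inv_mul_cancel₀ (pow_ne_zero 2 hu), map_one]
    linear_combination (algebraMap K E ((N.aug U ^ 2)⁻¹)) * M * h2 + M * h5
  rw [h4] at h3
  exact h3

lemma one_not_inI (d : Fin r → K) : ¬ N.InI d 1 := by
  intro h
  have h1 := h (fun _ => 1) (fun _ => 0)
  have h2 := N.top_pair d (fun _ => 1) (fun _ => 0) (fun _ => 1) (fun _ => 0)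
  unfold th at h1
  rw [one_mul] at h1
  simp only [map_one, map_zero, zero_mul, add_zero, one_mul, mul_one] at h1 h2
  rw [h1] at h2
  simp at h2

/-- (T4), first form. -/
lemma th_ee [Infinite K] (d : Fin r → K) (A B : K → K) (j : ℕ) :
    N.th d A B ((N.EE d).coeff j)
      = (∏ i, (C (A (d i)) + C (B (d i)) * X : K[X])).coeff j := by
  rw [← thL_apply]
  apply lin_coeff_eq
  intro s
  rw [eval_EE, thL_apply, eval_prod]
  unfold th res
  rw [← Finset.prod_mul_distrib]
  have h := N.top_pair d (fun _ => 1) (fun _ => s) (fun i => A (d i)) (fun i => B (d i))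
  have h2 : ∀ i, (C (A (d i)) + C (B (d i)) * X : K[X]).eval s = 1 * A (d i) + s * B (d i) := by
    intro i
    rw [eval_add, eval_mul, eval_C, eval_C, eval_X, one_mul, mul_comm]
  rw [Finset.prod_congr rfl (fun i _ => h2 i), ← h]
  congr 1
  refine Finset.prod_congr rfl (fun i _ => ?_)
  simp

end Fld

end NilTop

end Pool.Agent.Helper57.CYC
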