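import Pool.Agent.Helper57.CYC.C1c
import Pool.Agent.Helper73.SNC.C1a

/-!
# ST_ARITH
-/

set_option autoImplicit false
set_option linter.unusedSectionVars false

namespace Pool.Agent.Helper57.CYC

open Finset Polynomial Pool.Agent.Helper42.CYC Pool.Agent.Helper73.SNC
open IsLocalRing (ResidueField residue)

theorem st_arith : ST_ARITH := by
  intro W h2 n _ hn h b hb hD hper
  obtain ⟨D, hD⟩ := hD
  have h2m : (2 : W) ∈ IsLocalRing.maximalIdeal W := by
    rw [IsLocalRing.mem_maximalIdeal]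
    exact h2
  have h20 : (2 : W) ≠ 0 := two_ne_zero
  have hchar : CharP (ResidueField W) 2 := charP_res W h2
  obtain ⟨Lam, i1, i2, φ, res, al, I, hφ, hres, hal, hal2, hu, hI, hodd, heven, hinj, hroot⟩ :=
    Pool.Agent.Helper73.SNC.C1.c1a h2m h20 (psiV W) (psiV_inj W) hn b hb D hD hper
  obtain ⟨S, g, hSm, hSd, hgd, hF, hSr, hg⟩ := c1b φ res al hal2 hal (fun l => psiV W (b l)) I
    (fun y => psiV W y) hodd heven (by
      intro t ht
      obtain ⟨l, hl⟩ := hroot t ht
      exact ⟨l, by rw [hres, hres]; exact hl⟩)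
  obtain ⟨V, p, Mi, hFO, h0, hp, hsub, hMi, hS, hgM⟩ := c1c res al hal2 hal
    (fun l => φ (psiV W (b l))) (by
      intro l
      rw [hres]
      exact ((isUnit_psiV W (b l)).map (residue W)).ne_zero) ⟨D, by
        rw [← hD]
        refine Finset.prod_congr rfl (fun l _ => ?_)
        rw [hres]⟩ I hI (fun y => φ (psiV W y)) (by
      intro y hy y' hy' h
      simp only [hres] at h
      exact hinj hy hy' h) (by
      intro t ht
      obtain ⟨l, hl⟩ := hroot t ht
      exact ⟨l, by rw [hres, hres]; exact hl⟩) S g hSm hSd hgd hF hg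
  exact ⟨Lam, i1, i2, φ, res, al, S, g, V, p, Mi, hφ, hres, hal, hu, hFO, h0, hp, hsub, hMi, hS, hgM⟩

end Pool.Agent.Helper57.CYC
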