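import Pool.Agent.Helper73.SNC.Val

/-!
# C1, arithmetic part: the power sums of a set of roots of unity to first order

`R` a local domain with residue characteristic 2, `ψ` an injective additive character of
`ZMod n` with values in `R`, `b` an injective family such that every fibre of the reduction has
even size and the set is not invariant under `+ n/2`.  Then all odd power sums are `α` times an
element with reduction `∑_{ρ ∈ Min} ρ ^ i`.
-/

set_option autoImplicit false
set_option linter.unusedSectionVars false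

namespace Pool.Agent.Helper57.CYC

open Finset Polynomial IsLocalRing

section

variable {R : Type} [CommRing R] [IsDomain R] [IsLocalRing R]
variable {n : ℕ} [NeZero n] (ψ : AddChar (ZMod n) R)

lemma charP_residue (h2 : (2 : R) ∈ maximalIdeal R) : CharP (ResidueField R) 2 := by
  refine CharTwo.of_one_ne_zero_of_two_eq_zero one_ne_zero ?_
  have : (2 : ResidueField R) = residue R 2 := by rw [map_ofNat]
  rw [this, residue_eq_zero_iff]
  exact h2

/-- The reduction of a root of unity of order a power of 2. -/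
lemma res_two_pow (h2 : (2 : R) ∈ maximalIdeal R) (s : ℕ) (t : ZMod n)
    (ht : (2 ^ s) • t = 0) : residue R (ψ t) = 1 := by
  have := charP_residue h2
  have h1 : ψ t ^ (2 ^ s) = 1 := by
    rw [← AddChar.map_nsmul_eq_pow, ht, AddChar.map_zero_eq_one]
  have h3 : (residue R (ψ t) - 1) ^ (2 ^ s) = 0 := by
    rw [sub_pow_char_pow, ← map_pow, h1, map_one, one_pow, sub_self]
  exact sub_eq_zero.1 (pow_eq_zero_iff (by positivity) |>.1 h3)

/-- The reduction is injective on elements of odd order. -/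
lemma res_odd (h2 : (2 : R) ∈ maximalIdeal R) (hψ : Function.Injective ψ) (n' : ℕ) (hodd : Odd n')
    (y : ZMod n) (hy : n' • y = 0) (h : residue R (ψ y) = 1) : y = 0 := by
  have := charP_residue h2
  by_contra hne
  have h1 : ψ y ≠ 1 := by
    intro h1
    apply hne
    apply hψ
    rw [h1, AddChar.map_zero_eq_one]
  have h3 : ψ y ^ n' = 1 := by
    rw [← AddChar.map_nsmul_eq_pow, hy, AddChar.map_zero_eq_one]
  have h4 := geom_sum_mul (ψ y) n'
  rw [h3, sub_self] at h4
  have h5 := (mul_eq_zero.1 h4).resolve_right (sub_ne_zero.2 h1)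
  have h6 := congrArg (residue R) h5
  rw [map_sum, map_zero] at h6
  simp only [map_pow, h, one_pow, sum_const, card_range, nsmul_eq_mul, mul_one] at h6
  obtain ⟨q, hq⟩ := hodd
  rw [hq] at h6
  push_cast at h6
  have h7 : (2 : ResidueField R) = 0 := CharTwo.two_eq_zero
  rw [h7, zero_mul, zero_add] at h6
  exact one_ne_zero h6

/-- The splitting of an element in its odd part and its 2-part. -/
lemma exists_split (s n' : ℕ) (hn' : n = 2 ^ (s + 1) * n') (hodd : Odd n') :
    ∃ e : ℕ, ∀ x : ZMod n, n' • (e • x) = 0 ∧ (2 ^ (s + 1)) • (x - e • x) = 0 := by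
  have hcop : Nat.Coprime (2 ^ (s + 1)) n' := by
    apply Nat.Coprime.pow_left
    exact (Nat.coprime_two_left).2 hodd
  obtain ⟨e, he1, he2⟩ := Nat.chineseRemainder hcop 0 1
  refine ⟨e, fun x => ⟨?_, ?_⟩⟩
  · have h1 : 2 ^ (s + 1) ∣ e := (Nat.modEq_zero_iff_dvd).1 he1
    obtain ⟨q, hq⟩ := h1
    rw [smul_smul, hq]
    have : n' * (2 ^ (s + 1) * q) = n * q := by rw [hn']; ring
    rw [this, mul_comm n q, mul_smul]
    have h2 : n • x = 0 := by rw [nsmul_eq_mul, ZMod.natCast_self, zero_mul]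
    rw [h2, smul_zero]
  · have h3 : (2 ^ (s + 1)) • (x - e • x) = (((2 ^ (s + 1) : ℕ) : ZMod n) * (1 - (e : ZMod n))) * x := by
      rw [nsmul_eq_mul, nsmul_eq_mul]
      ring
    rw [h3]
    have h4 : (((2 ^ (s + 1) * e : ℕ)) : ZMod n) = ((2 ^ (s + 1) * 1 : ℕ) : ZMod n) := by
      rw [ZMod.natCast_eq_natCast_iff, hn']
      exact Nat.ModEq.mul_left' _ he2
    have h5 : ((2 ^ (s + 1) : ℕ) : ZMod n) * (1 - (e : ZMod n)) = 0 := by
      rw [Nat.cast_mul, Nat.cast_mul, Nat.cast_one, mul_one] at h4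
      rw [mul_sub, mul_one, h4, sub_self]
    rw [h5, zero_mul]

/-- The polynomial of one class at an odd power of `θ`. -/
lemma class_value (h2 : (2 : R) ∈ maximalIdeal R) (s : ℕ) (θ : R) (hθ : θ ^ (2 ^ s) = -1)
    (c : ℤ[X]) (hc : c.map (Int.castRingHom (ZMod 2)) ≠ 0) (ν : ℕ) (hν : ν < 2 ^ s)
    (hv : ν ≤ (c.map (Int.castRingHom (ZMod 2))).rootMultiplicity 1) (i : ℕ) (hi : Odd i) :
    ∃ t : R, aeval (θ ^ i) c = (θ - 1) ^ ν * t ∧
      residue R t = if (c.map (Int.castRingHom (ZMod 2))).rootMultiplicity 1 = ν then 1 else 0 := by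
  have := charP_residue h2
  set cb := c.map (Int.castRingHom (ZMod 2)) with hcb
  set v := cb.rootMultiplicity 1 with hvdef
  have hθ1 : residue R θ = 1 := by
    have h1 : (residue R θ) ^ (2 ^ s) = 1 := by
      rw [← map_pow, hθ, map_neg, map_one, CharTwo.neg_eq]
    have h3 : (residue R θ - 1) ^ (2 ^ s) = 0 := by
      rw [sub_pow_char_pow, h1, one_pow, sub_self]
    exact sub_eq_zero.1 (pow_eq_zero_iff (by positivity) |>.1 h3)
  obtain ⟨ub, hub, hub1⟩ := Polynomial.exists_eq_pow_rootMultiplicity_mul_and_not_dvd cb hc 1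
  have hub2 : ub.eval 1 ≠ 0 := fun h0 => hub1 (Polynomial.dvd_iff_isRoot.2 h0)
  obtain ⟨u, hu⟩ := Polynomial.map_surjective (Int.castRingHom (ZMod 2))
    ZMod.intCast_surjective ub
  have h3 : (c - (X - 1) ^ v * u).map (Int.castRingHom (ZMod 2)) = 0 := by
    rw [Polynomial.map_sub, Polynomial.map_mul, Polynomial.map_pow, Polynomial.map_sub,
      Polynomial.map_X, Polynomial.map_one, hu, ← hcb, sub_eq_zero]
    rw [← C_1]
    exact hub
  have h4 : (C 2 : ℤ[X]) ∣ c - (X - 1) ^ v * u := by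
    rw [Polynomial.C_dvd_iff_dvd_coeff]
    intro i
    have := congrArg (fun p => p.coeff i) h3
    simp only [Polynomial.coeff_map, Polynomial.coeff_zero, eq_intCast] at this
    exact (ZMod.intCast_zmod_eq_zero_iff_dvd _ 2).1 this
  obtain ⟨w, hw⟩ := h4
  have h5 : aeval (θ ^ i) c = (θ ^ i - 1) ^ v * aeval (θ ^ i) u + 2 * aeval (θ ^ i) w := by
    have : c = (X - 1) ^ v * u + C 2 * w := by rw [← hw]; ring
    rw [this]
    simp only [map_add, map_mul, map_pow, map_sub, map_one, aeval_X, map_ofNat]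
  -- the geometric factor
  set gi : R := ∑ j ∈ range i, θ ^ j with hgi
  have hgi1 : θ ^ i - 1 = (θ - 1) * gi := by
    rw [hgi, mul_comm]
    exact (geom_sum_mul θ i).symm
  have hgi2 : residue R gi = 1 := by
    rw [hgi, map_sum]
    simp only [map_pow, hθ1, one_pow, sum_const, card_range, nsmul_eq_mul, mul_one]
    obtain ⟨q, hq⟩ := hi
    rw [hq]
    push_cast
    have h7 : (2 : ResidueField R) = 0 := CharTwo.two_eq_zero
    rw [h7, zero_mul, zero_add]
  -- the unit value
  have hu1 : residue R (aeval (θ ^ i) u) = 1 := by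
    have h12 : residue R (aeval (θ ^ i) u) = ((u.eval 1 : ℤ) : ResidueField R) := by
      rw [Polynomial.aeval_def, Polynomial.hom_eval₂, map_pow, hθ1, one_pow]
      have : ((residue R).comp (algebraMap ℤ R)) = Int.castRingHom (ResidueField R) :=
        RingHom.ext_int _ _
      rw [this]
      have h13 := Polynomial.eval₂_at_intCast (p := u) (Int.castRingHom (ResidueField R)) 1
      simp only [Int.cast_one, eq_intCast] at h13
      exact h13
    have hodd1 : Odd (u.eval 1) := by
      rw [← Int.not_even_iff_odd]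
      intro hev
      apply hub2
      rw [← hu]
      have h14 : (u.map (Int.castRingHom (ZMod 2))).eval 1 = ((u.eval 1 : ℤ) : ZMod 2) := by
        have := Polynomial.eval_intCast_map (Int.castRingHom (ZMod 2)) u 1
        simp only [Int.cast_one, eq_intCast] at this
        exact this
      rw [h14]
      exact (ZMod.intCast_zmod_eq_zero_iff_dvd _ 2).2 hev.two_dvd
    obtain ⟨q, hq⟩ := hodd1
    rw [h12, hq]
    push_cast
    have h7 : (2 : ResidueField R) = 0 := CharTwo.two_eq_zero
    rw [h7, zero_mul, zero_add]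
  have hπ : residue R (θ - 1) = 0 := by rw [map_sub, hθ1, map_one, sub_self]
  -- 2 is a multiple of a high power
  obtain ⟨q, hq⟩ := Pool.Agent.Helper73.SNC.Gen.pow_dvd_two s θ hθ
  have hq2 : (2 : R) = (θ - 1) ^ ν * ((-1) ^ (2 ^ s) * (θ - 1) ^ (2 ^ s - ν) * q) := by
    have e1 : (1 - θ) ^ (2 ^ s) = (-1) ^ (2 ^ s) * (θ - 1) ^ (2 ^ s) := by
      rw [← mul_pow]; congr 1; ring
    have e2 : (θ - 1) ^ (2 ^ s) = (θ - 1) ^ ν * (θ - 1) ^ (2 ^ s - ν) := by
      rw [← pow_add]; congr 1; omega
    rw [hq, e1, e2]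
    ring
  refine ⟨(θ - 1) ^ (v - ν) * gi ^ v * aeval (θ ^ i) u +
    ((-1) ^ (2 ^ s) * (θ - 1) ^ (2 ^ s - ν) * q) * aeval (θ ^ i) w, ?_, ?_⟩
  · have e3 : (θ - 1) ^ v = (θ - 1) ^ ν * (θ - 1) ^ (v - ν) := by
      rw [← pow_add]; congr 1; omega
    rw [h5, hgi1, mul_pow, e3]
    nth_rewrite 1 [hq2]
    ring
  · have h8 : residue R ((θ - 1) ^ (2 ^ s - ν)) = 0 := by
      rw [map_pow, hπ, zero_pow (by omega)]
    rw [map_add, map_mul, map_mul, map_mul, map_mul, map_mul, h8, mul_zero, zero_mul, zero_mul,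
      add_zero, hu1, mul_one, map_pow, map_pow, hgi2, one_pow, mul_one, hπ]
    split_ifs with h9
    · rw [h9, Nat.sub_self, pow_zero]
    · rw [zero_pow (by omega)]

end

end Pool.Agent.Helper57.CYC
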