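import Pool.Agent.Helper73.SNC.Val

/-!
# C1b: from the power sums to the first order form of the polynomial
-/

set_option autoImplicit false
set_option linter.unusedSectionVars false

namespace Pool.Agent.Helper57.CYC

open Finset Polynomial

lemma coeff_deriv {L : Type} [CommRing L] {k : ℕ} (x : Fin k → L) (j : ℕ) :
    (∏ l, (X - C (x l))).coeff (j + 1) * ((j : L) + 1)
      = ∑ i ∈ Icc (j + 1) k, (∑ l, x l ^ (i - (j + 1))) * (∏ l, (X - C (x l))).coeff i := by
  classical
  rcases subsingleton_or_nontrivial L with hL | hL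
  · exact Subsingleton.elim _ _
  set F : L[X] := ∏ l, (X - C (x l)) with hF
  have hFd : F.natDegree = k := by
    rw [hF, natDegree_prod_of_monic _ _ (fun i _ => monic_X_sub_C _)]
    simp
  have h1 : derivative F = ∑ l, F /ₘ (X - C (x l)) := by
    rw [hF, derivative_prod_finset]
    refine Finset.sum_congr rfl (fun l _ => ?_)
    rw [derivative_sub, derivative_X, derivative_C, sub_zero, mul_one]
    have h2 : ∏ l, (X - C (x l)) = (X - C (x l)) * ∏ i ∈ univ.erase l, (X - C (x i)) :=
      (Finset.mul_prod_erase univ (fun i => X - C (x i)) (mem_univ l)).symm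
    rw [h2, mul_divByMonic_cancel_left _ (monic_X_sub_C _)]
  have h3 := congrArg (fun p => coeff p j) h1
  simp only [coeff_derivative, finsetSum_coeff] at h3
  rw [h3]
  have h4 : ∀ l, (F /ₘ (X - C (x l))).coeff j
      = ∑ i ∈ Icc (j + 1) k, x l ^ (i - (j + 1)) * F.coeff i := by
    intro l
    rw [coeff_divByMonic_X_sub_C, hFd]
  rw [Finset.sum_congr rfl (fun l _ => h4 l), Finset.sum_comm]
  refine Finset.sum_congr rfl (fun i _ => ?_)
  rw [Finset.sum_mul]

lemma sum_even_Icc {M : Type*} [AddCommMonoid M] (j r : ℕ) (f : ℕ → M)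
    (hf : ∀ i, Odd i → f i = 0) :
    ∑ i ∈ Icc (2 * j + 1) (2 * r), f i = ∑ i ∈ Icc (j + 1) r, f (2 * i) := by
  classical
  have h1 : ∑ i ∈ Icc (j + 1) r, f (2 * i) = ∑ i ∈ (Icc (j + 1) r).image (fun i => 2 * i), f i := by
    rw [Finset.sum_image]
    intro a _ b _ hab
    simp only at hab
    omega
  rw [h1]
  symm
  apply Finset.sum_subset
  · intro i hi
    rw [Finset.mem_image] at hi
    obtain ⟨a, ha, rfl⟩ := hi
    rw [mem_Icc] at ha ⊢
    omega
  · intro i hi hi2
    apply hf
    rw [← Nat.not_even_iff_odd]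
    rintro ⟨a, ha⟩
    apply hi2
    rw [Finset.mem_image]
    rw [mem_Icc] at hi
    exact ⟨a, by rw [mem_Icc]; omega, by omega⟩

theorem c1b {R L K : Type} [CommRing R] [CommRing L] [CharP L 2] [Field K] (phi : R →+* L)
    (res : L →+* K) (al : L) (hal2 : al * al = 0) (hal : ∀ x, al * x = 0 ↔ res x = 0) {r : ℕ}
    (x : Fin (2 * r) → R) {ι : Type} (I : Finset ι) (y : ι → R)
    (hodd : ∀ i, Odd i → phi (∑ l, x l ^ i) = al * phi (∑ t ∈ I, y t ^ i))
    (heven : ∀ i, Even i → 0 < i → phi (∑ l, x l ^ i) = 0)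
    (hroot : ∀ t ∈ I, ∃ l, res (phi (x l)) = res (phi (y t))) :
    ∃ S g : L[X], S.Monic ∧ S.natDegree = r ∧ g.degree < (r : WithBot ℕ) ∧
      ∏ l, (X - C (phi (x l))) = expand L 2 S + C al * X * expand L 2 g ∧
      (∀ t ∈ I, (S.map res).IsRoot (res (phi (y t)) ^ 2)) ∧
      g.map res = ∑ t ∈ I, C (res (phi (y t))) *
        (S.map res /ₘ (X - C (res (phi (y t)) ^ 2))) := by
  classical
  have : Nontrivial L := CharP.nontrivial_of_char_ne_one (v := 2) (by norm_num)
  have h2L : (2 : L) = 0 := CharTwo.two_eq_zero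
  set F : L[X] := ∏ l, (X - C (phi (x l))) with hF
  have hFm : F.Monic := monic_prod_of_monic _ _ (fun i _ => monic_X_sub_C _)
  have hFd : F.natDegree = 2 * r := by
    rw [hF, natDegree_prod_of_monic _ _ (fun i _ => monic_X_sub_C _)]
    simp
  have hP : ∀ i, ∑ l, phi (x l) ^ i = phi (∑ l, x l ^ i) := by
    intro i
    rw [map_sum]
    exact Finset.sum_congr rfl (fun l _ => (map_pow _ _ _).symm)
  have hP0 : ∀ i, Even i → ∑ l, phi (x l) ^ i = 0 := by
    intro i hi
    rcases Nat.eq_zero_or_pos i with h0 | h0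
    · rw [h0]
      simp only [pow_zero, sum_const, card_univ, Fintype.card_fin, nsmul_eq_mul, mul_one]
      push_cast
      rw [h2L, zero_mul]
    · rw [hP, heven i hi h0]
  set gc : ℕ → L := fun j => ∑ i ∈ Icc (j + 1) r,
    phi (∑ t ∈ I, y t ^ (2 * i - (2 * j + 1))) * F.coeff (2 * i) with hgc
  have hcoef : ∀ j, F.coeff (2 * j + 1) = al * gc j := by
    intro j
    have h1 := coeff_deriv (fun l => phi (x l)) (2 * j)
    rw [← hF] at h1
    have h3 : F.coeff (2 * j + 1) * (((2 * j : ℕ) : L) + 1) = F.coeff (2 * j + 1) := by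
      push_cast
      rw [h2L, zero_mul, zero_add, mul_one]
    rw [h3, sum_even_Icc j r (fun i => (∑ l, phi (x l) ^ (i - (2 * j + 1))) * F.coeff i)] at h1
    · rw [h1, hgc, Finset.mul_sum]
      refine Finset.sum_congr rfl (fun i hi => ?_)
      rw [mem_Icc] at hi
      rw [hP, hodd (2 * i - (2 * j + 1)) ⟨i - j - 1, by omega⟩]
      ring
    · intro i hi
      by_cases hij : 2 * j + 1 ≤ i
      · rw [hP0 _ (by
          obtain ⟨q, hq⟩ := hi
          exact ⟨q - j, by omega⟩), zero_mul]
      · -- never used range, but the statement must hold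
        have : i - (2 * j + 1) = 0 := by omega
        rw [this, hP0 0 (by decide), zero_mul]
  obtain ⟨S, hSm, hSd, hFS⟩ := Pool.Agent.Helper73.SNC.even_odd_parts F hFm hFd al gc
    (fun i _ => hcoef i)
  have hres : res al = 0 := (hal al).1 hal2
  -- coefficients of `S`
  have hSc : ∀ i, S.coeff i = F.coeff (2 * i) := by
    intro i
    rw [hFS, coeff_add, mul_assoc, coeff_C_mul, coeff_expand (by norm_num), if_pos (by omega),
      Nat.mul_div_cancel_left _ (by norm_num)]
    have h1 : (X * Polynomial.expand L 2 (∑ i ∈ range r, C (gc i) * X ^ i)).coeff (2 * i) = 0 := by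
      rcases i with _ | i
      · simp
      · have : 2 * (i + 1) = (2 * i + 1) + 1 := by ring
        rw [this, Polynomial.coeff_X_mul, Polynomial.coeff_expand (by norm_num), if_neg (by omega)]
    rw [h1, mul_zero, add_zero]
  set g : L[X] := ∑ i ∈ range r, C (gc i) * X ^ i with hg
  have hgcoef : ∀ j, g.coeff j = if j < r then gc j else 0 := by
    intro j
    rw [hg, finsetSum_coeff]
    simp only [coeff_C_mul, coeff_X_pow, mul_ite, mul_one, mul_zero]
    rw [Finset.sum_ite_eq]
    simp only [mem_range]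
  have hdeg : g.degree < (r : WithBot ℕ) := by
    rw [degree_lt_iff_coeff_zero]
    intro m hm
    rw [hgcoef, if_neg (by omega)]
  refine ⟨S, g, hSm, hSd, hdeg, hFS, ?_, ?_⟩
  · intro t ht
    obtain ⟨l, hl⟩ := hroot t ht
    have h1 : (F.map res).eval (res (phi (x l))) = 0 := by
      rw [hF, Polynomial.map_prod, eval_prod]
      exact Finset.prod_eq_zero (mem_univ l) (by simp)
    rw [hFS, Polynomial.map_add, Polynomial.map_mul, Polynomial.map_mul, map_C, hres, C_0, zero_mul,
      zero_mul, add_zero, map_expand, expand_eval, hl] at h1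
    exact h1
  · ext j
    rw [coeff_map, hgcoef, finsetSum_coeff]
    have hSd' : (S.map res).natDegree = r := by rw [hSm.natDegree_map, hSd]
    have h1 : ∀ t ∈ I, (C (res (phi (y t))) * (S.map res /ₘ (X - C (res (phi (y t)) ^ 2)))).coeff j
        = ∑ i ∈ Icc (j + 1) r, res (phi (y t)) ^ (2 * i - (2 * j + 1)) * res (F.coeff (2 * i)) := by
      intro t _
      rw [coeff_C_mul, coeff_divByMonic_X_sub_C, hSd', Finset.mul_sum]
      refine Finset.sum_congr rfl (fun i hi => ?_)
      rw [mem_Icc] at hi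
      rw [coeff_map, hSc, ← mul_assoc, ← pow_mul, ← pow_succ']
      congr 2
      omega
    rw [Finset.sum_congr rfl h1, Finset.sum_comm]
    split_ifs with hj
    · rw [hgc, map_sum]
      refine Finset.sum_congr rfl (fun i _ => ?_)
      rw [map_mul, map_sum, map_sum, Finset.sum_mul]
      refine Finset.sum_congr rfl (fun t _ => ?_)
      rw [map_pow, map_pow]
    · rw [map_zero, Icc_eq_empty (by omega), Finset.sum_empty]

end Pool.Agent.Helper57.CYC
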