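import Pool.Agent.Helper57.CYC.C1b
import Pool.Agent.Helper42.CYC.StmtsC

/-!
# C1c: roots and multiplicities
-/

set_option autoImplicit false
set_option linter.unusedSectionVars false

namespace Pool.Agent.Helper57.CYC

open Finset Polynomial Pool.Agent.Helper42.CYC

theorem c1c {L K : Type} [CommRing L] [CharP L 2] [Field K] [CharP K 2]
    (res : L →+* K) (al : L) (hal2 : al * al = 0) (hal : ∀ x, al * x = 0 ↔ res x = 0) {h : ℕ}
    (x : Fin (2 * h) → L) (hx0 : ∀ l, res (x l) ≠ 0)
    (hD : ∃ D : K[X], ∏ l, (X - C (res (x l))) = D ^ 2)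
    {ι : Type} (I : Finset ι) (hI : I.Nonempty) (y : ι → L)
    (hinj : Set.InjOn (fun t => res (y t)) (I : Set ι))
    (hroot : ∀ t ∈ I, ∃ l, res (x l) = res (y t)) (S g : L[X]) (hSm : S.Monic)
    (hSd : S.natDegree = h) (hgd : g.degree < (h : WithBot ℕ))
    (hF : ∏ l, (X - C (x l)) = expand L 2 S + C al * X * expand L 2 g)
    (hg : g.map res = ∑ t ∈ I, C (res (y t)) * (S.map res /ₘ (X - C (res (y t) ^ 2)))) :
    ∃ (V : Finset K) (p : K → ℕ) (Mi : Finset K),
      FO res al h S g (∏ l, (X - C (x l))) ∧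
      (0 : K) ∉ V ∧ (∀ v ∈ V, 1 ≤ p v) ∧ Mi ⊆ V ∧ Mi.Nonempty ∧
      S.map res = ∏ v ∈ V, (X - C (v ^ 2)) ^ (p v) ∧
      g.map res = ∑ ρ ∈ Mi, C ρ * ∏ v ∈ V, (X - C (v ^ 2)) ^ (pm p ρ v) := by
  classical
  obtain ⟨D, hD⟩ := hD
  have hres : res al = 0 := (hal al).1 hal2
  set V : Finset K := univ.image (fun l => res (x l)) with hV
  set p : K → ℕ := fun v => D.rootMultiplicity v with hp
  set Mi : Finset K := I.image (fun t => res (y t)) with hMi
  have hFK : ∏ l, (X - C (res (x l))) = expand K 2 (S.map res) := by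
    have h1 := congrArg (Polynomial.map res) hF
    rw [Polynomial.map_prod, Polynomial.map_add, Polynomial.map_mul, Polynomial.map_mul, map_C,
      hres, C_0, zero_mul, zero_mul, add_zero, map_expand] at h1
    rw [← h1]
    refine Finset.prod_congr rfl (fun l _ => ?_)
    simp
  have hne : (∏ l, (X - C (res (x l)))) ≠ 0 :=
    (monic_prod_of_monic _ _ (fun i _ => monic_X_sub_C _)).ne_zero
  have hD0 : D ≠ 0 := by
    rintro rfl
    rw [hD] at hne
    exact hne (by simp)
  have hmult : ∀ v, (univ.filter (fun l => res (x l) = v)).card = 2 * p v := by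
    intro v
    have h1 : (∏ l, (X - C (res (x l)))).rootMultiplicity v = 2 * p v := by
      rw [hD, pow_two, rootMultiplicity_mul (mul_ne_zero hD0 hD0), two_mul]
    rw [← h1, ← count_roots, roots_prod _ _ hne]
    simp only [roots_X_sub_C]
    rw [Multiset.count_bind]
    simp only [Multiset.count_singleton]
    rw [Finset.card_filter]
    change _ = ∑ b, if v = res (x b) then 1 else 0
    refine Finset.sum_congr rfl (fun l _ => ?_)
    by_cases hl : res (x l) = v
    · rw [if_pos hl, if_pos hl.symm]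
    · rw [if_neg hl, if_neg (fun h => hl h.symm)]
  have hSK : S.map res = ∏ v ∈ V, (X - C (v ^ 2)) ^ (p v) := by
    apply expand_injective (R := K) (n := 2) (by norm_num)
    rw [← hFK, map_prod]
    have h1 : ∏ l, (X - C (res (x l))) = ∏ v ∈ V, (X - C v) ^ (2 * p v) := by
      rw [Finset.prod_comp (fun v => X - C v) (fun l => res (x l))]
      refine Finset.prod_congr rfl (fun v _ => ?_)
      rw [← hmult v]
    rw [h1]
    refine Finset.prod_congr rfl (fun v _ => ?_)
    rw [pow_mul, map_pow, map_sub, expand_X, expand_C]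
    congr 1
    have h3 : (2 : K[X]) = 0 := by
      have h4 : (2 : K) = 0 := CharTwo.two_eq_zero
      have h5 := congrArg (C : K → K[X]) h4
      rwa [map_ofNat, C_0] at h5
    rw [C_pow]
    linear_combination (C v ^ 2 - X * C v) * h3
  have hp1 : ∀ v ∈ V, 1 ≤ p v := by
    intro v hv
    rw [hV, Finset.mem_image] at hv
    obtain ⟨l, _, hl⟩ := hv
    have h1 := hmult v
    have h2 : 0 < (univ.filter (fun l => res (x l) = v)).card :=
      Finset.card_pos.2 ⟨l, by simp [hl]⟩
    omega
  have hsub : Mi ⊆ V := by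
    intro ρ hρ
    rw [hMi, Finset.mem_image] at hρ
    obtain ⟨t, ht, rfl⟩ := hρ
    obtain ⟨l, hl⟩ := hroot t ht
    rw [hV, Finset.mem_image]
    exact ⟨l, mem_univ _, hl⟩
  refine ⟨V, p, Mi, ⟨hal2, fun z hz => (hal z).2 hz, hSm, hSd, hgd, hF⟩, ?_, hp1, hsub, ?_, hSK, ?_⟩
  · intro h0
    rw [hV, Finset.mem_image] at h0
    obtain ⟨l, _, hl⟩ := h0
    exact hx0 l hl
  · exact hI.image _
  · rw [hg, hMi, Finset.sum_image hinj]
    refine Finset.sum_congr rfl (fun t ht => ?_)
    congr 1
    have hρ : res (y t) ∈ V := hsub (Finset.mem_image_of_mem _ ht)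
    have h1 : S.map res = (X - C (res (y t) ^ 2)) *
        ∏ v ∈ V, (X - C (v ^ 2)) ^ (pm p (res (y t)) v) := by
      rw [hSK, ← Finset.mul_prod_erase V _ hρ, ← Finset.mul_prod_erase V
        (fun v => (X - C (v ^ 2)) ^ (pm p (res (y t)) v)) hρ, ← mul_assoc]
      congr 1
      · unfold pm
        rw [if_pos rfl, ← pow_succ']
        congr 1
        have := hp1 _ hρ
        omega
      · refine Finset.prod_congr rfl (fun v hv => ?_)
        unfold pm
        rw [if_neg (Finset.ne_of_mem_erase hv), Nat.sub_zero]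
    rw [h1, mul_divByMonic_cancel_left _ (monic_X_sub_C _)]

end Pool.Agent.Helper57.CYC
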