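import Pool.Agent.Helper57.CYC.C1a

/-!
# C1a: power sums to first order (complete)
-/

set_option autoImplicit false
set_option linter.unusedSectionVars false

namespace Pool.Agent.Helper57.CYC

open Finset Polynomial IsLocalRing

/-- The polynomial of a set of exponents. -/
noncomputable def cls {k : ℕ} (s : Finset (Fin k)) (jf : Fin k → ℕ) : ℤ[X] := ∑ l ∈ s, X ^ jf l

lemma coeff_cls {k : ℕ} (s : Finset (Fin k)) (jf : Fin k → ℕ)
    (hj : Set.InjOn jf (s : Set (Fin k))) (j : ℕ) [Decidable (∃ l ∈ s, jf l = j)] :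
    ((cls s jf).map (Int.castRingHom (ZMod 2))).coeff j = if ∃ l ∈ s, jf l = j then 1 else 0 := by
  classical
  unfold cls
  rw [coeff_map, finsetSum_coeff, map_sum]
  simp only [coeff_X_pow]
  split_ifs with h
  · obtain ⟨l, hl, rfl⟩ := h
    rw [Finset.sum_eq_single l]
    · simp
    · intro l' hl' hne
      rw [if_neg, map_zero]
      intro h
      exact hne (hj hl' hl h.symm)
    · intro h
      exact absurd hl h
  · refine Finset.sum_eq_zero (fun l hl => ?_)
    rw [if_neg, map_zero]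
    intro h2
    exact h ⟨l, hl, h2.symm⟩

lemma cls_ne_zero {k : ℕ} (s : Finset (Fin k)) (hs : s.Nonempty) (jf : Fin k → ℕ)
    (hj : Set.InjOn jf (s : Set (Fin k))) :
    (cls s jf).map (Int.castRingHom (ZMod 2)) ≠ 0 := by
  classical
  obtain ⟨l, hl⟩ := hs
  intro h
  have h1 := coeff_cls s jf hj (jf l)
  rw [h, coeff_zero, if_pos ⟨l, hl, rfl⟩] at h1
  exact zero_ne_one h1

/-- A class divisible by `(X - 1)^(2^s)` is periodic. -/
lemma cls_periodic {k : ℕ} (S : Finset (Fin k)) (jf : Fin k → ℕ)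
    (hj : Set.InjOn jf (S : Set (Fin k))) (s : ℕ) (hlt : ∀ l ∈ S, jf l < 2 ^ (s + 1))
    (hv : 2 ^ s ≤ ((cls S jf).map (Int.castRingHom (ZMod 2))).rootMultiplicity 1)
    (l : Fin k) (hl : l ∈ S) :
    ∃ l' ∈ S, jf l' = jf l + 2 ^ s ∨ jf l' + 2 ^ s = jf l := by
  classical
  set cb := (cls S jf).map (Int.castRingHom (ZMod 2)) with hcb
  have hne : cb ≠ 0 := cls_ne_zero S ⟨l, hl⟩ jf hj
  have hdvd : (X - C 1) ^ (2 ^ s) ∣ cb := (le_rootMultiplicity_iff hne).1 hv
  have hpow : (X - C (1 : ZMod 2)) ^ (2 ^ s) = X ^ (2 ^ s) - 1 := by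
    rw [sub_pow_char_pow, C_1, one_pow]
  rw [hpow] at hdvd
  obtain ⟨q, hq⟩ := hdvd
  have hdeg : cb.natDegree < 2 ^ (s + 1) := by
    have h1 : cb.natDegree ≤ 2 ^ (s + 1) - 1 := by
      rw [natDegree_le_iff_coeff_eq_zero]
      intro m hm
      rw [hcb, coeff_cls S jf hj, if_neg]
      rintro ⟨l', hl', h2⟩
      have := hlt l' hl'
      omega
    have h2 : 0 < 2 ^ (s + 1) := by positivity
    omega
  have hq0 : q ≠ 0 := by
    rintro rfl
    rw [mul_zero] at hq
    exact hne hq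
  have hqdeg : q.natDegree < 2 ^ s := by
    have h1 : (X ^ (2 ^ s) - 1 : (ZMod 2)[X]).natDegree = 2 ^ s := by
      have := natDegree_X_pow_sub_C (R := ZMod 2) (n := 2 ^ s) (r := 1)
      rwa [C_1] at this
    have h2 : (X ^ (2 ^ s) - 1 : (ZMod 2)[X]) ≠ 0 := by
      intro h0
      rw [h0, natDegree_zero] at h1
      have : 0 < 2 ^ s := by positivity
      omega
    have h3 := natDegree_mul h2 hq0
    rw [← hq, h1] at h3
    have h4 : 2 ^ (s + 1) = 2 ^ s + 2 ^ s := by rw [pow_succ]; ring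
    omega
  have hcoef : ∀ j, cb.coeff j = (if 2 ^ s ≤ j then q.coeff (j - 2 ^ s) else 0) - q.coeff j := by
    intro j
    rw [hq, sub_mul, one_mul, coeff_sub, coeff_X_pow_mul']
  have hqz : ∀ j, 2 ^ s ≤ j → q.coeff j = 0 := fun j hj =>
    coeff_eq_zero_of_natDegree_lt (lt_of_lt_of_le hqdeg hj)
  have h1 : cb.coeff (jf l) = 1 := by
    rw [hcb, coeff_cls S jf hj, if_pos ⟨l, hl, rfl⟩]
  have hex : ∀ j, cb.coeff j = 1 → ∃ l' ∈ S, jf l' = j := by
    intro j h
    rw [hcb, coeff_cls S jf hj] at h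
    by_contra hcon
    rw [if_neg hcon] at h
    exact zero_ne_one h
  by_cases hcase : 2 ^ s ≤ jf l
  · have h2 := hcoef (jf l)
    rw [h1, if_pos hcase, hqz _ hcase, sub_zero] at h2
    have h3 := hcoef (jf l - 2 ^ s)
    have h4 := hlt l hl
    have h5 : 2 ^ (s + 1) = 2 ^ s + 2 ^ s := by rw [pow_succ]; ring
    rw [if_neg (by omega), ← h2] at h3
    obtain ⟨l', hl', h6⟩ := hex (jf l - 2 ^ s) (by rw [h3]; decide)
    exact ⟨l', hl', Or.inr (by omega)⟩
  · have h2 := hcoef (jf l)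
    rw [h1, if_neg hcase] at h2
    have h3 := hcoef (jf l + 2 ^ s)
    rw [if_pos (by omega), Nat.add_sub_cancel, hqz (jf l + 2 ^ s) (by omega), sub_zero] at h3
    have h4 : q.coeff (jf l) = 1 := by
      have h5 : q.coeff (jf l) = -1 := by
        have h6 : (1 : ZMod 2) + q.coeff (jf l) = 0 := by
          rw [h2]; ring
        linear_combination h6
      rw [h5]; decide
    obtain ⟨l', hl', h6⟩ := hex (jf l + 2 ^ s) (by rw [h3, h4])
    exact ⟨l', hl', Or.inl h6⟩

lemma aeval_cls {R : Type} [CommRing R] {k : ℕ} (s : Finset (Fin k)) (jf : Fin k → ℕ) (z : R) :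
    aeval z (cls s jf) = ∑ l ∈ s, z ^ jf l := by
  unfold cls
  rw [map_sum]
  refine Finset.sum_congr rfl (fun l _ => ?_)
  rw [map_pow, aeval_X]

section

variable {R : Type} [CommRing R] [IsDomain R] [IsLocalRing R]
variable {n : ℕ} [NeZero n] (ψ : AddChar (ZMod n) R)

theorem psum_first (h2 : (2 : R) ∈ maximalIdeal R) (hψ : Function.Injective ψ)
    (hn : Even n) {k : ℕ} (b : Fin k → ZMod n) (hb : Function.Injective b)
    (heven : ∀ w : ResidueField R, Even (Nat.card {l // residue R (ψ (b l)) = w}))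
    (hper : ¬ ∀ x ∈ univ.image b, x + ((n / 2 : ℕ) : ZMod n) ∈ univ.image b) :
    ∃ (s : ℕ) (θ : R) (ν : ℕ) (I : Finset (ZMod n)), θ ^ (2 ^ s) = -1 ∧ 1 ≤ ν ∧ ν < 2 ^ s ∧
      I.Nonempty ∧ Set.InjOn (fun y => residue R (ψ y)) (I : Set (ZMod n)) ∧
      (∀ y ∈ I, ∃ l, residue R (ψ (b l)) = residue R (ψ y)) ∧
      ∀ i, Odd i → ∃ t : R, ∑ l, ψ (b l) ^ i = (θ - 1) ^ ν * t ∧
        residue R t = residue R (∑ y ∈ I, ψ y ^ i) := by
  classical
  have := charP_residue h2
  have hn0 : 0 < n := Nat.pos_of_ne_zero (NeZero.ne n)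
  obtain ⟨s', n', hodd, hn'⟩ := Nat.exists_eq_two_pow_mul_odd (NeZero.ne n)
  obtain ⟨s, rfl⟩ : ∃ s, s' = s + 1 := by
    rcases s' with _ | s
    · exfalso
      rw [pow_zero, one_mul] at hn'
      rw [hn'] at hn
      exact (Nat.not_even_iff_odd.2 hodd) hn
    · exact ⟨s, rfl⟩
  have hhalf : n / 2 = n' * 2 ^ s := by
    rw [hn', pow_succ]
    have : 2 ^ s * 2 * n' = 2 * (n' * 2 ^ s) := by ring
    rw [this, Nat.mul_div_cancel_left _ (by norm_num)]
  obtain ⟨e, he⟩ := exists_split (n := n) s n' hn' hodd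
  -- exponents
  have hj : ∀ l, ∃ j, j < 2 ^ (s + 1) ∧ b l - e • b l = ((n' * j : ℕ) : ZMod n) := fun l =>
    Pool.Agent.Helper73.SNC.Gen.kill_iff s n' hn' _ (he (b l)).2
  choose jf hjf1 hjf2 using hj
  set θ : R := ψ ((n' : ℕ) : ZMod n) with hθ
  have hθpow : ∀ j : ℕ, ψ ((n' * j : ℕ) : ZMod n) = θ ^ j := by
    intro j
    rw [hθ, ← AddChar.map_nsmul_eq_pow]
    congr 1
    rw [nsmul_eq_mul]
    push_cast
    ring
  have hθN : θ ^ (2 ^ s) = -1 := by
    rw [← hθpow, ← hhalf, Pool.Agent.Helper73.SNC.Gen.psi_half ψ hψ hn]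
  set Y : Finset (ZMod n) := univ.image (fun l => e • b l) with hY
  set cl : ZMod n → Finset (Fin k) := fun y => univ.filter (fun l => e • b l = y) with hcl
  have hinj : ∀ y, Set.InjOn jf (cl y : Set (Fin k)) := by
    intro y l hl l' hl' h
    rw [hcl, Finset.coe_filter] at hl hl'
    apply hb
    have h1 := hjf2 l
    have h3 := hjf2 l'
    rw [h] at h1
    have h4 : b l = e • b l + ((n' * jf l' : ℕ) : ZMod n) := by rw [← h1]; abel
    have h5 : b l' = e • b l' + ((n' * jf l' : ℕ) : ZMod n) := by rw [← h3]; abel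
    rw [h4, h5, hl.2, hl'.2]
  have hψb : ∀ l, ψ (b l) = ψ (e • b l) * θ ^ jf l := by
    intro l
    rw [← hθpow, ← AddChar.map_add_eq_mul, ← hjf2 l]
    congr 1
    abel
  have hresb : ∀ l, residue R (ψ (b l)) = residue R (ψ (e • b l)) := by
    intro l
    have h1 : ψ (b l) = ψ (e • b l) * ψ (b l - e • b l) := by
      rw [← AddChar.map_add_eq_mul]
      congr 1
      abel
    rw [h1, map_mul, res_two_pow ψ h2 (s + 1) _ (he (b l)).2, mul_one]
  have hYn : ∀ y ∈ Y, n' • y = 0 := by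
    intro y hy
    rw [hY, Finset.mem_image] at hy
    obtain ⟨l, _, rfl⟩ := hy
    exact (he (b l)).1
  have hYinj : Set.InjOn (fun y => residue R (ψ y)) (Y : Set (ZMod n)) := by
    intro y hy y' hy' h
    have h1 : residue R (ψ (y - y')) = 1 := by
      have h3 : ψ y = ψ (y - y') * ψ y' := by
        rw [← AddChar.map_add_eq_mul]
        congr 1
        abel
      simp only at h
      rw [h3, map_mul] at h
      have h4 : IsUnit (residue R (ψ y')) := by
        apply IsUnit.map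
        refine IsUnit.of_mul_eq_one (ψ (-y')) ?_
        rw [← AddChar.map_add_eq_mul, add_neg_cancel, AddChar.map_zero_eq_one]
      have h5 : (residue R (ψ (y - y')) - 1) * residue R (ψ y') = 0 := by
        rw [sub_mul, one_mul, h, sub_self]
      exact sub_eq_zero.1 ((h4.mul_left_eq_zero).1 h5)
    have h6 := res_odd ψ h2 hψ n' hodd (y - y') (by
      rw [smul_sub, hYn y hy, hYn y' hy', sub_self]) h1
    exact sub_eq_zero.1 h6
  have hclY : ∀ y ∈ Y, (cl y).Nonempty := by
    intro y hy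
    rw [hY, Finset.mem_image] at hy
    obtain ⟨l, _, rfl⟩ := hy
    exact ⟨l, by rw [hcl]; simp⟩
  set cb : ZMod n → (ZMod 2)[X] := fun y => (cls (cl y) jf).map (Int.castRingHom (ZMod 2)) with hcb
  have hcb0 : ∀ y ∈ Y, cb y ≠ 0 := fun y hy => cls_ne_zero _ (hclY y hy) jf (hinj y)
  -- all multiplicities are positive
  have hpos : ∀ y ∈ Y, 1 ≤ (cb y).rootMultiplicity 1 := by
    intro y hy
    have h1 : (cb y).eval 1 = ((cl y).card : ZMod 2) := by
      simp only [hcb]
      unfold cls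
      rw [Polynomial.map_sum, eval_finsetSum]
      simp
    have h3 : cl y = univ.filter (fun l => residue R (ψ (b l)) = residue R (ψ y)) := by
      ext l
      simp only [hcl, Finset.mem_filter, mem_univ, true_and]
      rw [hresb l]
      constructor
      · intro h; rw [h]
      · intro h
        exact hYinj (Finset.mem_coe.2 (by rw [hY]; exact Finset.mem_image_of_mem _ (mem_univ l)))
          (Finset.mem_coe.2 hy) h
    have h4 : (cb y).eval 1 = 0 := by
      have h5 : (cl y).card = Nat.card {l // residue R (ψ (b l)) = residue R (ψ y)} := by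
        rw [h3, Nat.card_eq_fintype_card, Fintype.card_subtype]
      rw [h1, h5]
      obtain ⟨q, hq⟩ := heven (residue R (ψ y))
      rw [hq]
      push_cast
      exact CharTwo.add_self_eq_zero _
    exact (rootMultiplicity_pos (hcb0 y hy)).2 h4
  -- one of them is small
  have hsmall : ∃ y ∈ Y, (cb y).rootMultiplicity 1 < 2 ^ s := by
    by_contra hcon
    push Not at hcon
    apply hper
    intro x hx
    rw [Finset.mem_image] at hx
    obtain ⟨l, _, rfl⟩ := hx
    have hy : e • b l ∈ Y := by rw [hY]; exact Finset.mem_image_of_mem _ (mem_univ l)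
    obtain ⟨l', hl', h3⟩ := cls_periodic (cl (e • b l)) jf (hinj _) s (fun l' _ => hjf1 l')
      (hcon _ hy) l (by rw [hcl]; simp)
    rw [Finset.mem_image]
    refine ⟨l', mem_univ _, ?_⟩
    have h4 : e • b l' = e • b l := by
      rw [hcl] at hl'
      exact (Finset.mem_filter.1 hl').2
    have h5 : b l' = e • b l + ((n' * jf l' : ℕ) : ZMod n) := by
      rw [← hjf2 l', h4]
      have := h4
      abel
    have h6 : b l = e • b l + ((n' * jf l : ℕ) : ZMod n) := by
      rw [← hjf2 l]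
      abel
    rcases h3 with h7 | h7
    · rw [h5, h7]
      nth_rewrite 2 [h6]
      rw [hhalf]
      push_cast
      ring
    · have h8 : ((n' * jf l : ℕ) : ZMod n) = ((n' * jf l' : ℕ) : ZMod n) + ((n / 2 : ℕ) : ZMod n) := by
        rw [← h7, hhalf]
        push_cast
        ring
      have h9 : ((n / 2 : ℕ) : ZMod n) + ((n / 2 : ℕ) : ZMod n) = 0 := by
        rw [← Nat.cast_add]
        have : n / 2 + n / 2 = n := by obtain ⟨q, hq⟩ := hn; omega
        rw [this, ZMod.natCast_self]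
      rw [h5]
      nth_rewrite 2 [h6]
      rw [h8]
      linear_combination -h9
  obtain ⟨y1, hy1, hy1s⟩ := hsmall
  obtain ⟨y0, hy0, hmin⟩ := Finset.exists_min_image Y (fun y => (cb y).rootMultiplicity 1) ⟨y1, hy1⟩
  set ν := (cb y0).rootMultiplicity 1 with hν
  have hνs : ν < 2 ^ s := lt_of_le_of_lt (hmin y1 hy1) hy1s
  set I := Y.filter (fun y => (cb y).rootMultiplicity 1 = ν) with hI
  refine ⟨s, θ, ν, I, hθN, hpos y0 hy0, hνs, ⟨y0, by rw [hI, Finset.mem_filter]; exact ⟨hy0, rfl⟩⟩,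
    ?_, ?_, ?_⟩
  · intro y hy y' hy' h
    exact hYinj (Finset.mem_coe.2 (Finset.mem_of_mem_filter y hy))
      (Finset.mem_coe.2 (Finset.mem_of_mem_filter y' hy')) h
  · intro y hy
    have h1 := Finset.mem_of_mem_filter y hy
    rw [hY, Finset.mem_image] at h1
    obtain ⟨l, _, rfl⟩ := h1
    exact ⟨l, hresb l⟩
  · intro i hi
    have h3 : ∀ y : ZMod n, ∃ t : R, y ∈ Y → (∑ l ∈ cl y, (θ ^ i) ^ jf l = (θ - 1) ^ ν * t ∧
        residue R t = if (cb y).rootMultiplicity 1 = ν then 1 else 0) := by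
      intro y
      by_cases hy : y ∈ Y
      · obtain ⟨t, ht1, ht2⟩ := class_value h2 s θ hθN (cls (cl y) jf) (hcb0 y hy) ν hνs
          (hmin y hy) i hi
        refine ⟨t, fun _ => ⟨?_, ht2⟩⟩
        rw [← ht1, aeval_cls]
      · exact ⟨0, fun h => absurd h hy⟩
    choose t ht using h3
    refine ⟨∑ y ∈ Y, ψ y ^ i * t y, ?_, ?_⟩
    · have h4 : ∑ l, ψ (b l) ^ i = ∑ y ∈ Y, ∑ l ∈ cl y, ψ (b l) ^ i := by
        rw [hY, hcl]
        exact (Finset.sum_fiberwise_of_maps_to (fun l _ => Finset.mem_image_of_mem _ (mem_univ l))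
          (fun l => ψ (b l) ^ i)).symm
      rw [h4, Finset.mul_sum]
      refine Finset.sum_congr rfl (fun y hy => ?_)
      have h5 : ∑ l ∈ cl y, ψ (b l) ^ i = ψ y ^ i * ∑ l ∈ cl y, (θ ^ i) ^ jf l := by
        rw [Finset.mul_sum]
        refine Finset.sum_congr rfl (fun l hl => ?_)
        rw [hcl] at hl
        have h6 := (Finset.mem_filter.1 hl).2
        rw [hψb l, h6, mul_pow, ← pow_mul, ← pow_mul, mul_comm (jf l) i]
      rw [h5, (ht y hy).1]
      ring
    · rw [map_sum, map_sum, hI, Finset.sum_filter]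
      refine Finset.sum_congr rfl (fun y hy => ?_)
      rw [map_mul, (ht y hy).2]
      split_ifs
      · rw [mul_one]
      · rw [mul_zero]

end

end Pool.Agent.Helper57.CYC
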