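import Pool.Agent.Helper57.CYC.Sig
import Pool.Agent.Helper58.SNE.AlgDefs

/-!
# The symmetric functions of the deformed roots modulo the theta ideal = the block ring

`local_iff`: a polynomial `P` in the elementary symmetric functions of the deformed roots is in
the theta ideal iff the same polynomial in the coefficients of `EE (blocks d)` is zero in the
block ring `QB K`.
-/

set_option autoImplicit false
set_option linter.unusedSectionVars false

namespace Pool.Agent.Helper57.CYC

open Finset Polynomial Pool.Agent.Helper10.CYC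

/-- The exponents of the binary expansion. -/
def bits (n : ℕ) : Finset ℕ := n.bitIndices.toFinset

lemma sum_bits (n : ℕ) : ∑ b ∈ bits n, 2 ^ b = n := by
  unfold bits
  rw [List.sum_toFinset _ (Nat.bitIndices_sorted.nodup)]
  exact Nat.sum_map_two_pow_bitIndices n

lemma bits_zero : bits 0 = ∅ := by
  unfold bits
  simp

section Blocks

variable {K : Type} {r : ℕ}

/-- The blocks: the binary digits of the multiplicities. -/
noncomputable def blocks (d : Fin r → K) : Finset (K × ℕ) := by
  classical exact (univ.image d).biUnion (fun v => (bits (mult d v)).image (fun b => (v, b)))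

lemma mult_zero (d : Fin r → K) (v : K) (hv : ∀ i, d i ≠ v) : mult d v = 0 := by
  classical
  unfold mult
  rw [Finset.card_eq_zero, Finset.filter_eq_empty_iff]
  intro i _
  exact hv i

lemma mem_blocks (d : Fin r → K) (β : K × ℕ) : β ∈ blocks d ↔ β.2 ∈ bits (mult d β.1) := by
  classical
  unfold blocks
  rw [Finset.mem_biUnion]
  constructor
  · rintro ⟨v, _, h⟩
    rw [Finset.mem_image] at h
    obtain ⟨b, hb, rfl⟩ := h
    exact hb
  · intro h
    refine ⟨β.1, ?_, ?_⟩
    · by_contra hcon
      rw [mult_zero d β.1, bits_zero] at h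
      · exact absurd h (Finset.notMem_empty _)
      · intro i hi
        apply hcon
        rw [← hi]
        exact Finset.mem_image_of_mem _ (mem_univ i)
    · rw [Finset.mem_image]
      exact ⟨β.2, h, rfl⟩

lemma prod_blocks {M : Type*} [CommMonoid M] [DecidableEq K] (d : Fin r → K) (F : K × ℕ → M) :
    ∏ β ∈ blocks d, F β = ∏ v ∈ univ.image d, ∏ b ∈ bits (mult d v), F (v, b) := by
  have h : blocks d = (univ.image d).biUnion (fun v => (bits (mult d v)).image (fun b => (v, b))) := by
    ext β
    rw [mem_blocks, Finset.mem_biUnion]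
    constructor
    · intro h
      refine ⟨β.1, ?_, ?_⟩
      · by_contra hcon
        rw [mult_zero d β.1, bits_zero] at h
        · exact absurd h (Finset.notMem_empty _)
        · intro i hi
          apply hcon
          rw [← hi]
          exact Finset.mem_image_of_mem _ (mem_univ i)
      · rw [Finset.mem_image]
        exact ⟨β.2, h, rfl⟩
    · rintro ⟨v, _, h⟩
      rw [Finset.mem_image] at h
      obtain ⟨b, hb, rfl⟩ := h
      exact hb
  rw [h, Finset.prod_biUnion]
  · refine Finset.prod_congr rfl (fun v _ => ?_)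
    rw [Finset.prod_image]
    intro a _ b _ hab
    exact (Prod.mk.inj hab).2
  · intro a _ b _ hab
    rw [Function.onFun, Finset.disjoint_left]
    intro β h1 h2
    rw [Finset.mem_image] at h1 h2
    obtain ⟨x, _, rfl⟩ := h1
    obtain ⟨y, _, h3⟩ := h2
    exact hab (Prod.mk.inj h3).1.symm

lemma prod_blocks_pow {M : Type*} [CommMonoid M] (d : Fin r → K) (F : K → M) :
    ∏ β ∈ blocks d, F β.1 ^ (2 ^ β.2) = ∏ i, F (d i) := by
  classical
  rw [prod_blocks d (fun β => F β.1 ^ (2 ^ β.2)), Finset.prod_comp F d]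
  refine Finset.prod_congr rfl (fun v _ => ?_)
  simp only
  rw [Finset.prod_pow_eq_pow_sum, sum_bits]
  unfold mult
  congr 1

end Blocks

section Lam

open Pool.Agent.Helper58.SNE

variable {K : Type} [Field K]

/-- The weight of one block. -/
noncomputable def om (A B : K → K) (β : K × ℕ) (e : ZMod 2) : K :=
  if e = 0 then A β.1 ^ (2 ^ β.2) else B β.1 ^ (2 ^ β.2) * (β.1 ^ (2 ^ β.2))⁻¹

/-- The weight of a basis element. -/
noncomputable def wt (s : Finset (K × ℕ)) (A B : K → K) (g : (K × ℕ) →₀ ZMod 2) : K :=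
  ∏ β ∈ s, om A B β (g β)

/-- The functional on the block ring. -/
noncomputable def Lam (s : Finset (K × ℕ)) (A B : K → K) : QB K →ₗ[K] K :=
  (Finsupp.linearCombination K (wt s A B)) ∘ₗ
    (AddMonoidAlgebra.coeffLinearEquiv (S := K) (M := (K × ℕ) →₀ ZMod 2) K).toLinearMap

lemma Lam_single (s : Finset (K × ℕ)) (A B : K → K) (g : (K × ℕ) →₀ ZMod 2) (c : K) :
    Lam s A B (AddMonoidAlgebra.single g c) = c * wt s A B g := by
  unfold Lam
  rw [LinearMap.comp_apply]
  change Finsupp.linearCombination K (wt s A B) (Finsupp.single g c) = _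
  rw [Finsupp.linearCombination_single, smul_eq_mul]

lemma om_shift [CharP K 2] (A B : K → K) (c : K) (β : K × ℕ) (hβ : β.1 ≠ 0) (e : ZMod 2) :
    om (fun t => A t + c * B t) (fun t => B t + c * t ^ 2 * A t) β e
      = om A B β e + β.1 ^ (2 ^ β.2) * c ^ (2 ^ β.2) * om A B β (e + 1) := by
  have hv : β.1 ^ (2 ^ β.2) ≠ 0 := pow_ne_zero _ hβ
  have h01 : e = 0 ∨ e = 1 := by
    revert e
    decide
  rcases h01 with rfl | rfl
  · unfold om
    rw [if_pos rfl, if_pos rfl, if_neg (by decide)]
    rw [add_pow_char_pow, mul_pow]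
    field_simp
  · unfold om
    rw [if_neg (by decide), if_neg (by decide), if_pos (by decide)]
    rw [add_pow_char_pow, mul_pow, mul_pow, ← pow_mul, mul_comm 2, pow_mul]
    field_simp

lemma eval_EE_block (s : Finset (K × ℕ)) (c : K) :
    (Pool.Agent.Helper58.SNE.EE s).eval (algebraMap K (QB K) c)
      = ∏ β ∈ s, (1 + AddMonoidAlgebra.single (Finsupp.single β 1)
          (β.1 ^ (2 ^ β.2) * c ^ (2 ^ β.2))) := by
  unfold Pool.Agent.Helper58.SNE.EE
  rw [eval_prod]
  refine Finset.prod_congr rfl (fun β _ => ?_)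
  rw [eval_add, eval_one, eval_mul, eval_C, eval_pow, eval_X, ← map_pow]
  congr 1
  unfold Pool.Agent.Helper58.SNE.eta
  rw [mul_comm, ← Algebra.smul_def, AddMonoidAlgebra.smul_single', mul_comm]

lemma Lam_prod [CharP K 2] [DecidableEq K] (s : Finset (K × ℕ)) (hs : ∀ β ∈ s, β.1 ≠ 0)
    (A B : K → K) (c : K)
    (t : Finset (K × ℕ)) (ht : t ⊆ s) : ∀ (g : (K × ℕ) →₀ ZMod 2) (a : K),
    Lam s A B (AddMonoidAlgebra.single g a * ∏ β ∈ t, (1 + AddMonoidAlgebra.single
      (Finsupp.single β 1) (β.1 ^ (2 ^ β.2) * c ^ (2 ^ β.2)))) =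
      a * ((∏ β ∈ s \ t, om A B β (g β)) *
        ∏ β ∈ t, om (fun t => A t + c * B t) (fun t => B t + c * t ^ 2 * A t) β (g β)) := by
  induction t using Finset.induction_on with
  | empty =>
    intro g a
    rw [Finset.prod_empty, mul_one, Lam_single, Finset.sdiff_empty, Finset.prod_empty, mul_one]
    rfl
  | insert β₀ t hβ ih =>
    intro g a
    have ht' : t ⊆ s := fun x hx => ht (Finset.mem_insert_of_mem hx)
    have hβs : β₀ ∈ s := ht (Finset.mem_insert_self _ _)
    have ih' := ih ht'
    rw [Finset.prod_insert hβ, Finset.prod_insert hβ]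
    have e1 : (AddMonoidAlgebra.single g a : QB K) * ((1 + AddMonoidAlgebra.single
        (Finsupp.single β₀ 1) (β₀.1 ^ (2 ^ β₀.2) * c ^ (2 ^ β₀.2))) *
          ∏ β ∈ t, (1 + AddMonoidAlgebra.single
            (Finsupp.single β 1) (β.1 ^ (2 ^ β.2) * c ^ (2 ^ β.2))))
        = AddMonoidAlgebra.single g a * ∏ β ∈ t, (1 + AddMonoidAlgebra.single
            (Finsupp.single β 1) (β.1 ^ (2 ^ β.2) * c ^ (2 ^ β.2)))
          + AddMonoidAlgebra.single (g + Finsupp.single β₀ 1)
              (a * (β₀.1 ^ (2 ^ β₀.2) * c ^ (2 ^ β₀.2))) *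
            ∏ β ∈ t, (1 + AddMonoidAlgebra.single
              (Finsupp.single β 1) (β.1 ^ (2 ^ β.2) * c ^ (2 ^ β.2))) := by
      rw [← AddMonoidAlgebra.single_mul_single]
      ring
    rw [e1, map_add, ih', ih']
    have e2 : ∏ β ∈ t, om (fun t => A t + c * B t) (fun t => B t + c * t ^ 2 * A t) β
          ((g + Finsupp.single β₀ 1 : (K × ℕ) →₀ ZMod 2) β)
        = ∏ β ∈ t, om (fun t => A t + c * B t) (fun t => B t + c * t ^ 2 * A t) β (g β) := by
      refine Finset.prod_congr rfl (fun β hb => ?_)
      have hne : β ≠ β₀ := fun h => hβ (h ▸ hb)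
      rw [Finsupp.add_apply, Finsupp.single_eq_of_ne hne, add_zero]
    have hsd : s \ t = insert β₀ (s \ insert β₀ t) := by
      ext β
      simp only [Finset.mem_sdiff, Finset.mem_insert]
      constructor
      · rintro ⟨h1, h2⟩
        by_cases h3 : β = β₀
        · exact Or.inl h3
        · exact Or.inr ⟨h1, fun h => h.elim h3 h2⟩
      · rintro (rfl | ⟨h1, h2⟩)
        · exact ⟨hβs, hβ⟩
        · exact ⟨h1, fun h => h2 (Or.inr h)⟩
    have hnm : β₀ ∉ s \ insert β₀ t := by
      simp
    have e3 : ∏ β ∈ s \ insert β₀ t, om A B β ((g + Finsupp.single β₀ 1 : (K × ℕ) →₀ ZMod 2) β)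
        = ∏ β ∈ s \ insert β₀ t, om A B β (g β) := by
      refine Finset.prod_congr rfl (fun β hb => ?_)
      have hne : β ≠ β₀ := fun h => hnm (h ▸ hb)
      rw [Finsupp.add_apply, Finsupp.single_eq_of_ne hne, add_zero]
    rw [hsd, Finset.prod_insert hnm, Finset.prod_insert hnm, e2, e3, Finsupp.add_apply,
      Finsupp.single_eq_same, om_shift A B c β₀ (hs β₀ hβs)]
    ring

lemma Lam_mul [CharP K 2] (s : Finset (K × ℕ)) (hs : ∀ β ∈ s, β.1 ≠ 0) (A B : K → K) (c : K)
    (z : QB K) :
    Lam s A B (z * (Pool.Agent.Helper58.SNE.EE s).eval (algebraMap K (QB K) c))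
      = Lam s (fun t => A t + c * B t) (fun t => B t + c * t ^ 2 * A t) z := by
  classical
  induction z using AddMonoidAlgebra.induction_linear with
  | zero => rw [zero_mul, map_zero, map_zero]
  | add x y hx hy => rw [add_mul, map_add, map_add, hx, hy]
  | single g a =>
    rw [eval_EE_block, Lam_prod s hs A B c s (Finset.Subset.refl s) g a, Finset.sdiff_self,
      Finset.prod_empty, one_mul, Lam_single]
    rfl

end Lam

section Pair

open Pool.Agent.Helper58.SNE

variable {K E : Type} [Field K] [CommRing E] [Algebra K E] {r : ℕ} (N : NilTop K E r)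
  [CharP K 2]

/-- The two functionals agree. -/
def Pair (d : Fin r → K) (z : QB K) (z' : E) : Prop :=
  ∀ A B : K → K, Lam (blocks d) A B z = N.th d A B z'

lemma th_shift (d : Fin r → K) (A B : K → K) (c : K) (z' : E) :
    N.th d A B (z' * (N.EE d).eval (algebraMap K E c))
      = N.th d (fun t => A t + c * B t) (fun t => B t + c * t ^ 2 * A t) z' := by
  rw [N.eval_EE]
  unfold NilTop.th NilTop.res
  rw [mul_assoc, ← Finset.prod_mul_distrib]
  congr 2
  refine Finset.prod_congr rfl (fun i _ => ?_)
  have h2 := N.x_sq d i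
  simp only [map_add, map_mul, map_pow, map_one, aeval_C, aeval_X] at h2 ⊢
  linear_combination (algebraMap K E c) * (algebraMap K E (A (d i))) * h2

lemma pair_one (d : Fin r → K) : Pair N d 1 1 := by
  intro A B
  have h1 : (1 : QB K) = AddMonoidAlgebra.single 0 1 := rfl
  rw [h1, Lam_single, one_mul]
  have h2 : wt (blocks d) A B 0 = ∏ i, A (d i) := by
    unfold wt
    rw [← prod_blocks_pow d A]
    refine Finset.prod_congr rfl (fun β _ => ?_)
    unfold om
    rw [Finsupp.zero_apply, if_pos rfl]
  rw [h2]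
  unfold NilTop.th
  rw [one_mul]
  have h3 := N.top_pair d (fun _ => 1) (fun _ => 0) (fun i => A (d i)) (fun i => B (d i))
  simp only [map_one, map_zero, zero_mul, add_zero, one_mul] at h3
  exact h3.symm

lemma Pair.add' {d : Fin r → K} {z w : QB K} {z' w' : E} (h : Pair N d z z') (h' : Pair N d w w') :
    Pair N d (z + w) (z' + w') := by
  intro A B
  rw [map_add, h A B, h' A B, ← N.thL_apply, ← N.thL_apply, ← N.thL_apply, map_add]

lemma Pair.smul' {d : Fin r → K} {z : QB K} {z' : E} (h : Pair N d z z') (c : K) :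
    Pair N d (c • z) (c • z') := by
  intro A B
  rw [map_smul, h A B, ← N.thL_apply, ← N.thL_apply, map_smul]

/-- A functional applied to the coefficients. -/
noncomputable def mapL {R : Type} [CommRing R] [Algebra K R] (L : R →ₗ[K] K) (p : R[X]) : K[X] :=
  ∑ i ∈ p.support, C (L (p.coeff i)) * X ^ i

lemma coeff_mapL {R : Type} [CommRing R] [Algebra K R] (L : R →ₗ[K] K) (p : R[X]) (j : ℕ) :
    (mapL L p).coeff j = L (p.coeff j) := by
  unfold mapL
  rw [finsetSum_coeff]
  simp only [coeff_C_mul, coeff_X_pow]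
  by_cases hj : j ∈ p.support
  · rw [Finset.sum_eq_single j]
    · simp
    · intro i _ hij
      rw [if_neg (Ne.symm hij), mul_zero]
    · intro h2
      exact absurd hj h2
  · rw [notMem_support_iff.1 hj, map_zero, Finset.sum_eq_zero]
    intro i hi
    rw [if_neg, mul_zero]
    rintro rfl
    exact hj hi

lemma eval_mapL {R : Type} [CommRing R] [Algebra K R] (L : R →ₗ[K] K) (p : R[X]) (s : K) :
    (mapL L p).eval s = L (p.eval (algebraMap K R s)) := by
  unfold mapL
  rw [eval_finsetSum, eval_eq_sum, Polynomial.sum, map_sum]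
  refine Finset.sum_congr rfl (fun i _ => ?_)
  rw [eval_mul, eval_C, eval_pow, eval_X, ← map_pow, mul_comm (p.coeff i), ← Algebra.smul_def,
    map_smul, smul_eq_mul, mul_comm]

lemma Pair.mul_coeff [Infinite K] {d : Fin r → K} (hd : ∀ i, d i ≠ 0) {z : QB K} {z' : E}
    (h : Pair N d z z') (j : ℕ) :
    Pair N d (z * (Pool.Agent.Helper58.SNE.EE (blocks d)).coeff j) (z' * (N.EE d).coeff j) := by
  have hb : ∀ β ∈ blocks d, β.1 ≠ 0 := by
    intro β hβ h0
    rw [mem_blocks, mult_zero d β.1, bits_zero] at hβ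
    · exact absurd hβ (Finset.notMem_empty _)
    · intro i
      rw [h0]
      exact hd i
  intro A B
  have h1 : mapL (Lam (blocks d) A B) (C z * Pool.Agent.Helper58.SNE.EE (blocks d))
      = mapL (N.thL d A B) (C z' * N.EE d) := by
    apply Polynomial.funext
    intro s
    rw [eval_mapL, eval_mapL, eval_mul, eval_mul, eval_C, eval_C, Lam_mul _ hb, N.thL_apply,
      th_shift, h]
  have h2 := congrArg (fun p => Polynomial.coeff p j) h1
  simp only [coeff_mapL, coeff_C_mul] at h2
  rw [h2, N.thL_apply]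

/-- The two functionals agree on all polynomials in the coefficients. -/
theorem pair_aeval [Infinite K] {d : Fin r → K} (hd : ∀ i, d i ≠ 0) (P : MvPolynomial ℕ K) :
    Pair N d (MvPolynomial.aeval (fun j => (Pool.Agent.Helper58.SNE.EE (blocks d)).coeff j) P)
      (MvPolynomial.aeval (fun j => (N.EE d).coeff j) P) := by
  induction P using MvPolynomial.induction_on with
  | C a =>
    rw [MvPolynomial.algHom_C, MvPolynomial.algHom_C, Algebra.algebraMap_eq_smul_one,
      Algebra.algebraMap_eq_smul_one]
    exact Pair.smul' N (pair_one N d) a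
  | add p q hp hq =>
    rw [map_add, map_add]
    exact Pair.add' N hp hq
  | mul_X p n hp =>
    rw [map_mul, map_mul, MvPolynomial.aeval_X, MvPolynomial.aeval_X]
    exact Pair.mul_coeff N hd hp n

end Pair

/-! ### The functionals separate the block ring -/

section Sep

open Pool.Agent.Helper58.SNE

variable {K : Type} [Field K]

/-- Elements of the block ring supported on the given blocks. -/
def suppSub (s : Finset (K × ℕ)) : Subalgebra K (QB K) where
  carrier := {z | ∀ g ∈ z.coeff.support, g.support ⊆ s}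
  mul_mem' := by
    classical
    intro a b ha hb g hg
    have h1 := AddMonoidAlgebra.support_coeff_mul_subset a b hg
    rw [Finset.mem_add] at h1
    obtain ⟨x, hx, y, hy, rfl⟩ := h1
    exact (Finsupp.support_add).trans (Finset.union_subset (ha x hx) (hb y hy))
  add_mem' := by
    classical
    intro a b ha hb g hg
    have h1 := Finsupp.support_add hg
    rcases Finset.mem_union.1 h1 with h | h
    · exact ha g h
    · exact hb g h
  algebraMap_mem' := by
    intro c g hg
    have h1 : (algebraMap K (QB K) c) = AddMonoidAlgebra.single 0 c := rfl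
    rw [h1, AddMonoidAlgebra.coeff_single] at hg
    have h2 := Finsupp.support_single_subset hg
    rw [Finset.mem_singleton] at h2
    rw [h2]
    simp

lemma eta_mem (s : Finset (K × ℕ)) (β : K × ℕ) (hβ : β ∈ s) :
    Pool.Agent.Helper58.SNE.eta β ∈ suppSub s := by
  intro g hg
  unfold Pool.Agent.Helper58.SNE.eta at hg
  rw [AddMonoidAlgebra.coeff_single] at hg
  have h2 := Finsupp.support_single_subset hg
  rw [Finset.mem_singleton] at h2
  rw [h2]
  refine (Finsupp.support_single_subset).trans ?_
  rw [Finset.singleton_subset_iff]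
  exact hβ

lemma coeff_EE_mem (s : Finset (K × ℕ)) (j : ℕ) :
    (Pool.Agent.Helper58.SNE.EE s).coeff j ∈ suppSub s := by
  have hEE : Pool.Agent.Helper58.SNE.EE s ∈ Polynomial.lifts (algebraMap (suppSub s) (QB K)) := by
    unfold Pool.Agent.Helper58.SNE.EE
    refine Subsemiring.prod_mem _ (fun β hβ => ?_)
    refine Subsemiring.add_mem _ (Subsemiring.one_mem _) (Subsemiring.mul_mem _ ?_
      (Subsemiring.pow_mem _ (Polynomial.X_mem_lifts _) _))
    rw [Polynomial.mem_lifts]
    exact ⟨C ⟨Pool.Agent.Helper58.SNE.eta β, eta_mem s β hβ⟩, by simp⟩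
  rw [Polynomial.lifts_iff_coeff_lifts] at hEE
  obtain ⟨c, hc⟩ := hEE j
  rw [← hc]
  exact c.2

lemma coeff_zero_of_eval' {ι : Type*} [Infinite K] {D : Type} [Fintype D]
    [DecidableEq D] (S : Finset ι) (e : ι → (D → ℕ)) (he : Set.InjOn e (S : Set ι))
    (c : ι → K) (h : ∀ A : D → K, ∑ φ ∈ S, c φ * ∏ v, A v ^ e φ v = 0) :
    ∀ φ ∈ S, c φ = 0 := by
  classical
  set F : MvPolynomial D K :=
    ∑ φ ∈ S, MvPolynomial.monomial (Finsupp.equivFunOnFinite.symm (e φ)) (c φ) with hF
  have hF0 : F = 0 := by
    apply MvPolynomial.funext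
    intro A
    rw [map_zero, ← h A, hF, map_sum]
    refine Finset.sum_congr rfl (fun φ _ => ?_)
    rw [MvPolynomial.eval_monomial, Finsupp.prod_fintype]
    · simp
    · intro i
      exact pow_zero _
  intro φ hφ
  have h1 := congrArg (MvPolynomial.coeff (Finsupp.equivFunOnFinite.symm (e φ))) hF0
  rw [hF, MvPolynomial.coeff_sum, MvPolynomial.coeff_zero, Finset.sum_eq_single φ] at h1
  · rw [MvPolynomial.coeff_monomial, if_pos rfl] at h1
    exact h1
  · intro ψ hψ hne
    rw [MvPolynomial.coeff_monomial, if_neg]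
    intro h2
    apply hne
    apply he hψ hφ
    exact Finsupp.equivFunOnFinite.symm.injective h2
  · intro h2
    exact absurd hφ h2

/-- The exponent of `A v` in the weight. -/
noncomputable def ex {r : ℕ} (d : Fin r → K) (g : (K × ℕ) →₀ ZMod 2) (v : K) : ℕ :=
  ∑ b ∈ bits (mult d v), if g (v, b) = 0 then 2 ^ b else 0

lemma ex_inj {r : ℕ} (d : Fin r → K) (g g' : (K × ℕ) →₀ ZMod 2) (v : K)
    (h : ex d g v = ex d g' v) (b : ℕ) (hb : b ∈ bits (mult d v)) :
    g (v, b) = g' (v, b) := by
  unfold ex at h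
  rw [← Finset.sum_filter, ← Finset.sum_filter] at h
  have h1 := Finset.geomSum_injective (le_refl 2) h
  have h2 : g (v, b) = 0 ↔ g' (v, b) = 0 := by
    have h3 := Finset.ext_iff.1 h1 b
    simp only [Finset.mem_filter, hb, true_and] at h3
    exact h3
  have h01 : ∀ e : ZMod 2, e = 0 ∨ e = 1 := by decide
  rcases h01 (g (v, b)) with h4 | h4 <;> rcases h01 (g' (v, b)) with h5 | h5
  · rw [h4, h5]
  · rw [h2.1 h4] at h5
    exact absurd h5 (by decide)
  · rw [h2.2 h5] at h4
    exact absurd h4 (by decide)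
  · rw [h4, h5]

lemma wt_eq {r : ℕ} (d : Fin r → K) (A : K → K) (g : (K × ℕ) →₀ ZMod 2) [DecidableEq K] :
    wt (blocks d) A (fun _ => 1) g
      = (∏ β ∈ blocks d, if g β = 0 then 1 else (β.1 ^ (2 ^ β.2))⁻¹) *
        ∏ v ∈ univ.image d, A v ^ ex d g v := by
  unfold wt
  have h1 : ∀ β ∈ blocks d, om A (fun _ => 1) β (g β)
      = (if g β = 0 then 1 else (β.1 ^ (2 ^ β.2))⁻¹) * A β.1 ^ (if g β = 0 then 2 ^ β.2 else 0) := by
    intro β _
    unfold om
    split_ifs with h
    · rw [one_mul]
    · rw [one_pow, one_mul, pow_zero, mul_one]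
  rw [Finset.prod_congr rfl h1, Finset.prod_mul_distrib]
  congr 1
  rw [prod_blocks d (fun β => A β.1 ^ (if g β = 0 then 2 ^ β.2 else 0))]
  refine Finset.prod_congr rfl (fun v _ => ?_)
  simp only
  rw [Finset.prod_pow_eq_pow_sum]
  rfl

theorem eq_zero_of_Lam [Infinite K] {r : ℕ} (d : Fin r → K) (hd : ∀ i, d i ≠ 0) (z : QB K)
    (hz : z ∈ suppSub (blocks d)) (h : ∀ A B : K → K, Lam (blocks d) A B z = 0) : z = 0 := by
  classical
  have hb : ∀ β ∈ blocks d, β.1 ≠ 0 := by
    intro β hβ h0
    rw [mem_blocks, mult_zero d β.1, bits_zero] at hβ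
    · exact absurd hβ (Finset.notMem_empty _)
    · intro i
      rw [h0]
      exact hd i
  have key := coeff_zero_of_eval' (K := K) (D := {v // v ∈ univ.image d}) z.coeff.support
    (fun g v => ex d g v) (by
      intro g hg g' hg' hgg
      ext β
      by_cases hβ : β ∈ blocks d
      · have hβ2 := (mem_blocks d β).1 hβ
        have hv : β.1 ∈ univ.image d := by
          by_contra hcon
          rw [mult_zero d β.1, bits_zero] at hβ2
          · exact absurd hβ2 (Finset.notMem_empty _)
          · intro i hi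
            apply hcon
            rw [← hi]
            exact Finset.mem_image_of_mem _ (mem_univ i)
        have h1 := congrFun hgg ⟨β.1, hv⟩
        have h2 := ex_inj d g g' β.1 h1 β.2 hβ2
        rw [show β = (β.1, β.2) from rfl, h2]
      · have h1 : g β = 0 := by
          by_contra h3
          exact hβ (hz g hg (Finsupp.mem_support_iff.2 h3))
        have h2 : g' β = 0 := by
          by_contra h3
          exact hβ (hz g' hg' (Finsupp.mem_support_iff.2 h3))
        rw [h1, h2])
    (fun g => z.coeff g * ∏ β ∈ blocks d, if g β = 0 then (1 : K) else (β.1 ^ (2 ^ β.2))⁻¹) (by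
      intro A
      have h1 := h (fun t => if ht : t ∈ univ.image d then A ⟨t, ht⟩ else 0) (fun _ => 1)
      have h2 : Lam (blocks d) (fun t => if ht : t ∈ univ.image d then A ⟨t, ht⟩ else 0)
          (fun _ => 1) z = z.coeff.sum (fun g c => c •
            wt (blocks d) (fun t => if ht : t ∈ univ.image d then A ⟨t, ht⟩ else 0)
              (fun _ => 1) g) := rfl
      rw [← h1, h2, Finsupp.sum]
      refine Finset.sum_congr rfl (fun g _ => ?_)
      rw [wt_eq, smul_eq_mul, mul_assoc]
      congr 2
      refine (Eq.trans (Finset.prod_coe_sort (univ.image d) _).symm ?_).symm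
      refine Finset.prod_congr rfl (fun v _ => ?_)
      rw [dif_pos v.2])
  have h0 : z.coeff = 0 := by
    ext g
    rw [Finsupp.zero_apply]
    by_contra hne
    have h1 := key g (Finsupp.mem_support_iff.2 hne)
    rcases mul_eq_zero.1 h1 with h2 | h2
    · exact hne h2
    · rw [Finset.prod_eq_zero_iff] at h2
      obtain ⟨β, hβ, h3⟩ := h2
      split_ifs at h3 with h4
      · exact one_ne_zero h3
      · exact inv_ne_zero (pow_ne_zero _ (hb β hβ)) h3
  exact AddMonoidAlgebra.coeff_eq_zero.1 h0

end Sep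

section Final

open Pool.Agent.Helper58.SNE

variable {K E : Type} [Field K] [CommRing E] [Algebra K E] {r : ℕ} (N : NilTop K E r)
  [CharP K 2]

lemma aeval_mem (d : Fin r → K) (P : MvPolynomial ℕ K) :
    MvPolynomial.aeval (fun j => (Pool.Agent.Helper58.SNE.EE (blocks d)).coeff j) P
      ∈ suppSub (blocks d) := by
  induction P using MvPolynomial.induction_on with
  | C a =>
    rw [MvPolynomial.algHom_C]
    exact Subalgebra.algebraMap_mem _ _
  | add p q hp hq =>
    rw [map_add]
    exact Subalgebra.add_mem _ hp hq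
  | mul_X p n hp =>
    rw [map_mul, MvPolynomial.aeval_X]
    exact Subalgebra.mul_mem _ hp (coeff_EE_mem _ n)

/-- **LOCAL**: the symmetric functions modulo the theta ideal are the block ring. -/
theorem local_iff [Infinite K] {d : Fin r → K} (hd : ∀ i, d i ≠ 0) (P : MvPolynomial ℕ K) :
    N.InI d (MvPolynomial.aeval (fun j => (N.EE d).coeff j) P) ↔
      MvPolynomial.aeval (fun j => (Pool.Agent.Helper58.SNE.EE (blocks d)).coeff j) P = 0 := by
  have h := pair_aeval N hd P
  constructor
  · intro h1
    apply eq_zero_of_Lam d hd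
    · exact aeval_mem d P
    · intro A B
      rw [h A B]
      exact h1 A B
  · intro h1 A B
    rw [← h A B, h1, map_zero]

end Final

end Pool.Agent.Helper57.CYC
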