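import Pool.Agent.Helper57.CYC.Theta

/-!
# Linear criterion for the ideal of the theta calculus
-/

set_option autoImplicit false
set_option linter.unusedSectionVars false

namespace Pool.Agent.Helper57.CYC

open Finset Polynomial Pool.Agent.Helper10.CYC

/-- The multiplicity of a root. -/
noncomputable def mult {K : Type} {r : ℕ} (d : Fin r → K) (v : K) : ℕ := by
  classical exact (univ.filter (fun i => d i = v)).card

/-- The indices `j` with `e_j` not in the ideal. -/
def Sig {K : Type} {r : ℕ} (d : Fin r → K) : Set ℕ :=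
  {j | ∃ i : K → ℕ, (∀ v, Odd ((mult d v).choose (i v))) ∧
    (by classical exact ∑ v ∈ univ.image d, i v) = j}

lemma coeff_zero_of_eval {K : Type} [Field K] [Infinite K] {D : Type} [Fintype D]
    [DecidableEq D] (S : Finset (D → ℕ)) (e : (D → ℕ) → (D → ℕ)) (he : Set.InjOn e (S : Set (D → ℕ)))
    (c : (D → ℕ) → K) (h : ∀ A : D → K, ∑ φ ∈ S, c φ * ∏ v, A v ^ e φ v = 0) :
    ∀ φ ∈ S, c φ = 0 := by
  classical
  set F : MvPolynomial D K :=
    ∑ φ ∈ S, MvPolynomial.monomial (Finsupp.equivFunOnFinite.symm (e φ)) (c φ) with hF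
  have hF0 : F = 0 := by
    apply MvPolynomial.funext
    intro A
    rw [map_zero, ← h A, hF, map_sum]
    refine Finset.sum_congr rfl (fun φ _ => ?_)
    rw [MvPolynomial.eval_monomial, Finsupp.prod_fintype]
    · simp
    · intro i
      exact pow_zero _
  intro φ hφ
  have h1 := congrArg (MvPolynomial.coeff (Finsupp.equivFunOnFinite.symm (e φ))) hF0
  rw [hF, MvPolynomial.coeff_sum, MvPolynomial.coeff_zero, Finset.sum_eq_single φ] at h1
  · rw [MvPolynomial.coeff_monomial, if_pos rfl] at h1
    exact h1
  · intro ψ hψ hne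
    rw [MvPolynomial.coeff_monomial, if_neg]
    intro h2
    apply hne
    apply he hψ hφ
    exact Finsupp.equivFunOnFinite.symm.injective h2
  · intro h2
    exact absurd hφ h2

section

variable {K : Type} [Field K] [CharP K 2] {r : ℕ}

lemma mult_eq_zero (d : Fin r → K) (v : K) (hv : ∀ i, d i ≠ v) : mult d v = 0 := by
  classical
  unfold mult
  rw [Finset.card_eq_zero, Finset.filter_eq_empty_iff]
  intro i _
  exact hv i

/-- The functional `X^j ↦ m_j` on the product of the linear factors. -/
lemma lam_prod (d : Fin r → K) (m : ℕ → K) (A B : K → K) [DecidableEq K] :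
    ∑ j ∈ range (r + 1), m j * (∏ i, (C (A (d i)) + C (B (d i)) * X : K[X])).coeff j
      = ∑ φ ∈ Fintype.piFinset (fun v : {v // v ∈ univ.image d} => range (mult d v + 1)),
          (m (∑ v : {v // v ∈ univ.image d}, φ v) * ∏ v : {v // v ∈ univ.image d}, ((mult d v).choose (φ v) : K) * B v ^ φ v) *
            ∏ v : {v // v ∈ univ.image d}, A v ^ (mult d v - φ v) := by
  have h1 : (∏ i, (C (A (d i)) + C (B (d i)) * X : K[X]))
      = ∑ φ ∈ Fintype.piFinset (fun v : {v // v ∈ univ.image d} => range (mult d v + 1)),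
          C ((∏ v : {v // v ∈ univ.image d}, ((mult d v).choose (φ v) : K) * B v ^ φ v) *
            ∏ v : {v // v ∈ univ.image d}, A v ^ (mult d v - φ v)) * X ^ (∑ v : {v // v ∈ univ.image d}, φ v) := by
    have e1 : (∏ i, (C (A (d i)) + C (B (d i)) * X : K[X]))
        = ∏ v ∈ univ.image d, (C (A v) + C (B v) * X : K[X]) ^ mult d v := by
      rw [Finset.prod_comp (fun v => (C (A v) + C (B v) * X : K[X])) d]
      refine Finset.prod_congr rfl (fun v _ => ?_)
      unfold mult
      congr 1
      congr 1
      ext i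
      simp
    rw [e1, ← Finset.prod_coe_sort]
    have e2 : ∀ v : {v // v ∈ univ.image d}, (C (A v) + C (B v) * X : K[X]) ^ mult d v
        = ∑ i ∈ range (mult d v + 1), C ((((mult d v).choose i : K) * B v ^ i) *
            A v ^ (mult d v - i)) * X ^ i := by
      intro v
      rw [add_comm, add_pow]
      refine Finset.sum_congr rfl (fun i _ => ?_)
      rw [mul_pow]
      simp only [map_mul, map_pow, map_natCast]
      ring
    rw [Finset.prod_congr rfl (fun v _ => e2 v), Finset.prod_univ_sum]
    refine Finset.sum_congr rfl (fun φ _ => ?_)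
    rw [Finset.prod_mul_distrib, ← map_prod, Finset.prod_mul_distrib, Finset.prod_pow_eq_pow_sum]
  rw [h1]
  have h2 : ∀ j ∈ range (r + 1), m j * (∑ φ ∈ Fintype.piFinset
      (fun v : {v // v ∈ univ.image d} => range (mult d v + 1)),
          C ((∏ v : {v // v ∈ univ.image d}, ((mult d v).choose (φ v) : K) * B v ^ φ v) *
            ∏ v : {v // v ∈ univ.image d}, A v ^ (mult d v - φ v)) * X ^ (∑ v : {v // v ∈ univ.image d}, φ v) : K[X]).coeff j
      = ∑ φ ∈ Fintype.piFinset
      (fun v : {v // v ∈ univ.image d} => range (mult d v + 1)), if j = ∑ v : {v // v ∈ univ.image d}, φ v then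
        (m (∑ v : {v // v ∈ univ.image d}, φ v) * ∏ v : {v // v ∈ univ.image d}, ((mult d v).choose (φ v) : K) * B v ^ φ v) *
            ∏ v : {v // v ∈ univ.image d}, A v ^ (mult d v - φ v) else 0 := by
    intro j _
    rw [finsetSum_coeff, Finset.mul_sum]
    refine Finset.sum_congr rfl (fun φ _ => ?_)
    rw [coeff_C_mul, coeff_X_pow]
    split_ifs with h
    · rw [h]; ring
    · ring
  rw [Finset.sum_congr rfl h2, Finset.sum_comm]
  refine Finset.sum_congr rfl (fun φ hφ => ?_)
  rw [Finset.sum_ite_eq']
  rw [if_pos]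
  rw [mem_range, Nat.lt_succ_iff]
  have h3 : ∑ v : {v // v ∈ univ.image d}, mult d v = r := by
    have h4 := Finset.card_eq_sum_card_image d (univ : Finset (Fin r))
    rw [Finset.card_univ, Fintype.card_fin] at h4
    rw [Finset.sum_coe_sort (univ.image d) (fun v => mult d v)]
    refine Eq.trans ?_ h4.symm
    refine Finset.sum_congr rfl (fun v _ => ?_)
    unfold mult
    congr 1
    ext i
    simp
  conv_rhs => rw [← h3]
  refine Finset.sum_le_sum (fun v _ => ?_)
  have h5 := (Fintype.mem_piFinset.1 hφ) v
  rw [mem_range] at h5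
  omega

/-- The linear criterion on the level of polynomials. -/
theorem lam_iff [Infinite K] (d : Fin r → K) (m : ℕ → K) :
    (∀ A B : K → K, ∑ j ∈ range (r + 1), m j *
      (∏ i, (C (A (d i)) + C (B (d i)) * X : K[X])).coeff j = 0) ↔ ∀ j ∈ Sig d, m j = 0 := by
  classical
  have hodd : ∀ n : ℕ, Odd n → (n : K) = 1 := by
    intro n hn
    obtain ⟨q, rfl⟩ := hn
    have h2 : (2 : K) = 0 := CharTwo.two_eq_zero
    push_cast
    rw [h2, zero_mul, zero_add]
  have heven : ∀ n : ℕ, ¬ Odd n → (n : K) = 0 := by
    intro n hn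
    rw [Nat.not_odd_iff_even] at hn
    obtain ⟨q, rfl⟩ := hn
    push_cast
    exact CharTwo.add_self_eq_zero _
  constructor
  · rintro h j ⟨i, hi, rfl⟩
    set φ : {v // v ∈ univ.image d} → ℕ := fun v => i v with hφ
    have hmem : φ ∈ Fintype.piFinset (fun v : {v // v ∈ univ.image d} => range (mult d v + 1)) := by
      rw [Fintype.mem_piFinset]
      intro v
      rw [mem_range, Nat.lt_succ_iff]
      by_contra hcon
      have h1 := hi v
      rw [Nat.choose_eq_zero_of_lt (not_le.1 hcon)] at h1
      exact absurd h1 (by decide)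
    have h1 := coeff_zero_of_eval
      (Fintype.piFinset (fun v : {v // v ∈ univ.image d} => range (mult d v + 1)))
      (fun φ v => mult d v - φ v) (by
        intro a ha b hb hab
        funext v
        have h2 := congrFun hab v
        have h3 := Fintype.mem_piFinset.1 (Finset.mem_coe.1 ha) v
        have h4 := Fintype.mem_piFinset.1 (Finset.mem_coe.1 hb) v
        rw [mem_range] at h3 h4
        simp only at h2
        omega)
      (fun φ => m (∑ v : {v // v ∈ univ.image d}, φ v) * ∏ v : {v // v ∈ univ.image d}, ((mult d v).choose (φ v) : K) * (1 : K) ^ φ v) (by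
        intro A
        have h2 := h (fun t => if ht : t ∈ univ.image d then A ⟨t, ht⟩ else 0) (fun _ => 1)
        have h2' := lam_prod d m (fun t => if ht : t ∈ univ.image d then A ⟨t, ht⟩ else 0)
          (fun _ => (1 : K))
        rw [← h2, h2']
        refine Finset.sum_congr rfl (fun φ _ => ?_)
        congr 1
        refine Finset.prod_congr rfl (fun v _ => ?_)
        rw [dif_pos v.2]) φ hmem
    have h2 : (∏ v : {v // v ∈ univ.image d}, ((mult d v).choose (φ v) : K) * (1 : K) ^ φ v) = 1 := by
      refine Finset.prod_eq_one (fun v _ => ?_)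
      rw [one_pow, mul_one]
      exact hodd _ (hi v)
    rw [h2, mul_one] at h1
    have h3 : ∑ v : {v // v ∈ univ.image d}, φ v = ∑ v ∈ univ.image d, i v :=
      Finset.sum_coe_sort (univ.image d) i
    rw [h3] at h1
    exact h1
  · intro h A B
    rw [lam_prod]
    refine Finset.sum_eq_zero (fun φ _ => ?_)
    by_cases hφ : ∀ v : {v // v ∈ univ.image d}, Odd ((mult d v).choose (φ v))
    · have h1 : m (∑ v : {v // v ∈ univ.image d}, φ v) = 0 := by
        apply h
        refine ⟨fun t => if ht : t ∈ univ.image d then φ ⟨t, ht⟩ else 0, ?_, ?_⟩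
        · intro v
          by_cases hv : v ∈ univ.image d
          · simp only [dif_pos hv]
            exact hφ ⟨v, hv⟩
          · simp only [dif_neg hv]
            rw [Nat.choose_zero_right]
            exact odd_one
        · rw [← Finset.sum_coe_sort]
          refine Finset.sum_congr rfl (fun v _ => ?_)
          rw [dif_pos v.2]
      rw [h1, zero_mul, zero_mul]
    · push Not at hφ
      obtain ⟨v, hv⟩ := hφ
      have h1 : (∏ v : {v // v ∈ univ.image d}, ((mult d v).choose (φ v) : K) * B v ^ φ v) = 0 := by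
        apply Finset.prod_eq_zero (mem_univ v)
        rw [heven _ hv, zero_mul]
      rw [h1, mul_zero, zero_mul]

variable {E : Type} [CommRing E] [Algebra K E] (N : NilTop K E r)

/-- (T4): linear forms in the ideal. -/
theorem NilTop.lin_iff [Infinite K] (d : Fin r → K) (m : ℕ → K) :
    N.InI d (∑ j ∈ range (r + 1), algebraMap K E (m j) * (N.EE d).coeff j) ↔
      ∀ j ∈ Sig d, m j = 0 := by
  rw [← lam_iff d m]
  have h : ∀ A B : K → K, N.th d A B (∑ j ∈ range (r + 1), algebraMap K E (m j) * (N.EE d).coeff j)
      = ∑ j ∈ range (r + 1), m j *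
        (∏ i, (C (A (d i)) + C (B (d i)) * X : K[X])).coeff j := by
    intro A B
    rw [← N.thL_apply, map_sum]
    refine Finset.sum_congr rfl (fun j _ => ?_)
    rw [← Algebra.smul_def, map_smul, smul_eq_mul, N.thL_apply, N.th_ee]
  constructor
  · intro h1 A B
    rw [← h]
    exact h1 A B
  · intro h1 A B
    rw [h]
    exact h1 A B

end

end Pool.Agent.Helper57.CYC
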